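import Mathlib
import Pool.Agent.H7.Comp.Arith
import Pool.Agent.H99.BinDet.EncInt

/-!
# Polynomial-time list operations in the model of `Pool.Agent.H7.Comp`
-/

namespace Pool.Agent.H60.Lists

open Pool.Agent.H7.Comp

variable {α β γ δ σ : Type} [Enc α] [Enc β] [Enc γ] [Enc δ] [Enc σ]

/-! ### Rational numbers -/

lemma ratNum : PT (fun q : ℚ => q.num) :=
  ⟨.hd, fun _ => 1, PB.const 1, PB.mono PB.self (fun q => by
    show sz q.num ≤ sz q
    have : sz q = sz q.num + sz (Nat.bits q.den) + 1 := rfl
    omega), fun q => ⟨1, le_rfl, Run.hd_node _ _⟩⟩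

lemma sz_ratDen (q : ℚ) : sz (q.den : ℤ) ≤ sz q := by
  have h1 : sz (q.den : ℤ) = sz (decide ((q.den : ℤ) < 0)) + sz (Nat.bits (q.den : ℤ).natAbs) + 1 :=
    rfl
  have h2 : sz q = sz q.num + sz (Nat.bits q.den) + 1 := rfl
  have h3 : decide ((q.den : ℤ) < 0) = false := by simp
  have h4 := sz_pos q.num
  rw [h3, Int.natAbs_natCast, sz_false] at h1
  omega

lemma ratDen : PT (fun q : ℚ => (q.den : ℤ)) := by
  refine ⟨.pair .nil .tl, fun _ => 3, PB.const 3, PB.mono PB.self sz_ratDen, fun q =>
    ⟨1 + 1 + 1, le_rfl, ?_⟩⟩
  have h : enc (q.den : ℤ) = .node .nil (enc (Nat.bits q.den)) := by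
    have h1 : enc (q.den : ℤ) = .node (enc (decide ((q.den : ℤ) < 0)))
      (enc (Nat.bits (q.den : ℤ).natAbs)) := rfl
    have h3 : decide ((q.den : ℤ) < 0) = false := by simp
    rw [h1, h3, Int.natAbs_natCast]
    rfl
  rw [h]
  exact Run.pair (Run.nil _) (Run.tl_node _ _)

/-! ### Length -/

lemma sz_length_le (l : List β) : 2 * l.length + 1 ≤ sz l := by
  induction l with
  | nil => simp [sz_nil]
  | cons a l ih =>
    rw [sz_cons, List.length_cons]
    have := sz_pos a
    omega

theorem length' : PT (fun l : List β => l.length) := by
  let body : Prog := .pair (.seq .hd .tl) (.pair .nil .tl)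
  have hloop : ∀ (l : List β) (k : ℕ), ∃ t, t ≤ 20 * l.length + 5 ∧
      Run (.loop .hd body) (.node (enc l) (encNat k)) (.node .nil (encNat (k + l.length))) t := by
    intro l
    induction l with
    | nil =>
      intro k
      exact ⟨1 + 1, by omega, Run.loop_stop (Run.hd_node _ _)⟩
    | cons a l ih =>
      intro k
      obtain ⟨t, ht, h⟩ := ih (k + 1)
      have hb : Run body (.node (enc (a :: l)) (encNat k)) (.node (enc l) (encNat (k + 1)))
          ((1 + 1 + 1) + (1 + 1 + 1) + 1) :=
        Run.pair (s := 1 + 1 + 1) (t := 1 + 1 + 1) (Run.seq (Run.hd_node _ _) (Run.tl_node _ _))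
          (Run.pair (Run.nil _) (Run.tl_node _ _))
      have h2 := Run.loop_step (Run.hd_node (enc (a :: l)) (encNat k)) hb h
      rw [show k + 1 + l.length = k + (a :: l).length by rw [List.length_cons]; ring] at h2
      exact ⟨_, by rw [List.length_cons]; omega, h2⟩
  refine ⟨.seq (.pair .id .nil) (.seq (.loop .hd body) .tl), fun l => 20 * l.length + 20, ?_, ?_,
    ?_⟩
  · refine ((PB.const 20).mul (PB.mono PB.self (fun l => ?_))).add (PB.const 20)
    have := sz_length_le l
    omega
  · refine PB.mono PB.self (fun l => ?_)
    show sz l.length ≤ sz l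
    rw [sz_nat]
    exact sz_length_le l
  · intro l
    obtain ⟨t, ht, h⟩ := hloop l 0
    rw [Nat.zero_add] at h
    exact ⟨_, by show _ ≤ 20 * l.length + 20; omega,
      Run.seq (Run.pair (Run.id _) (Run.nil _)) (Run.seq h (Run.tl_node _ _))⟩

lemma length {f : α → List β} (hf : PT f) : PT (fun x => (f x).length) := length'.comp hf

/-! ### Access -/

lemma sz_getElem_le (l : List β) (i : ℕ) (hi : i < l.length) : sz l[i] ≤ sz l := by
  induction l generalizing i with
  | nil => simp at hi
  | cons a l ih =>
    rw [sz_cons]
    cases i with
    | zero =>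
      simp only [List.getElem_cons_zero]
      omega
    | succ i =>
      simp only [List.getElem_cons_succ]
      have := ih i (by simpa using hi)
      omega

lemma sz_mem_le {l : List β} {a : β} (h : a ∈ l) : sz a ≤ sz l := by
  obtain ⟨i, hi, rfl⟩ := List.getElem_of_mem h
  exact sz_getElem_le l i hi

/-! ### Map -/

theorem map {l : α → List β} {f : α → β → γ} (hl : PT l)
    (hf : PT (fun p : α × β => f p.1 p.2)) : PT (fun x => (l x).map (f x)) := by
  by_cases hne : Nonempty β
  · obtain ⟨d⟩ := hne
    have h := PT.mapRange (length hl) (f := fun x i => f x ((l x).getD i d))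
      (hf.comp (PT.fst.pair (PT.getD (hl.comp PT.fst) PT.snd (PT.const d))))
    refine h.congr (fun x => ?_)
    apply List.ext_getElem
    · simp
    · intro i h1 h2
      have hi : i < (l x).length := by simpa using h2
      simp [hi]
  · have he : IsEmpty β := not_nonempty_iff.mp hne
    refine (PT.const ([] : List γ)).congr (fun x => ?_)
    have : l x = [] := by
      cases h : l x with
      | nil => rfl
      | cons a _ => exact (he.false a).elim
    rw [this]
    rfl

/-! ### Append -/

theorem append {l l' : α → List β} (hl : PT l) (hl' : PT l') : PT (fun x => l x ++ l' x) := by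
  by_cases hne : Nonempty β
  · obtain ⟨d⟩ := hne
    have hlt : PTp (fun p : α × ℕ => p.2 < (l p.1).length) :=
      PTp.lt PT.snd (length (hl.comp PT.fst))
    have h := PT.mapRange ((length hl).add (length hl'))
      (f := fun x i => if i < (l x).length then (l x).getD i d
        else (l' x).getD (i - (l x).length) d)
      (PT.ite hlt (PT.getD (hl.comp PT.fst) PT.snd (PT.const d))
        (PT.getD (hl'.comp PT.fst) (PT.snd.sub (length (hl.comp PT.fst))) (PT.const d)))
    refine h.congr (fun x => ?_)
    apply List.ext_getElem
    · simp
    · intro i h1 h2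
      simp only [List.getElem_map, List.getElem_range]
      split_ifs with h3
      · rw [List.getElem_append_left h3]
        simp [h3]
      · rw [List.getElem_append_right (by omega)]
        have h4 : i - (l x).length < (l' x).length := by
          rw [List.length_append] at h2
          omega
        simp [h4]
  · have he : IsEmpty β := not_nonempty_iff.mp hne
    refine (PT.const ([] : List β)).congr (fun x => ?_)
    cases h : l x ++ l' x with
    | nil => rfl
    | cons a _ => exact (he.false a).elim

/-! ### Folds -/

/-- Left fold, with a bound for the sizes of the intermediate values. -/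
theorem foldl {l : α → List β} {init : α → σ} {step : α → σ → β → σ} (hl : PT l) (hi : PT init)
    (hstep : PT (fun p : α × σ × β => step p.1 p.2.1 p.2.2)) (S : α → ℕ) (hS : PB S)
    (hb : ∀ x i, i ≤ (l x).length → sz (((l x).take i).foldl (step x) (init x)) ≤ S x) :
    PT (fun x => (l x).foldl (step x) (init x)) := by
  by_cases hne : Nonempty β
  · obtain ⟨d⟩ := hne
    have h := PT.iterClosed (n := fun x => (l x).length)
      (fun x i => ((l x).take i).foldl (step x) (init x))
      (fun q => step q.1 q.2.2 ((l q.1).getD q.2.1 d)) (length hl)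
      (hi.congr (fun x => by simp))
      (hstep.comp (PT.fst.pair ((PT.snd.comp PT.snd).pair
        (PT.getD (hl.comp PT.fst) (PT.fst.comp PT.snd) (PT.const d))))) ?_ S hS hb
    · refine h.congr (fun x => by simp)
    · intro x i hi'
      show ((l x).take (i + 1)).foldl (step x) (init x) =
        step x (((l x).take i).foldl (step x) (init x)) ((l x).getD i d)
      rw [List.take_succ_eq_append_getElem hi', List.foldl_append]
      simp [hi']
  · have he : IsEmpty β := not_nonempty_iff.mp hne
    refine hi.congr (fun x => ?_)
    cases h : l x with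
    | nil => rfl
    | cons a _ => exact (he.false a).elim

/-- Right fold, with a bound for the sizes of the intermediate values. -/
theorem foldr {l : α → List β} {init : α → σ} {step : α → β → σ → σ} (hl : PT l) (hi : PT init)
    (hstep : PT (fun p : α × β × σ => step p.1 p.2.1 p.2.2)) (S : α → ℕ) (hS : PB S)
    (hb : ∀ x i, i ≤ (l x).length → sz (((l x).drop i).foldr (step x) (init x)) ≤ S x) :
    PT (fun x => (l x).foldr (step x) (init x)) := by
  by_cases hne : Nonempty β
  · obtain ⟨d⟩ := hne
    have hlen := length hl
    have h := PT.iterClosed (n := fun x => (l x).length)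
      (fun x i => ((l x).drop ((l x).length - i)).foldr (step x) (init x))
      (fun q => step q.1 ((l q.1).getD ((l q.1).length - 1 - q.2.1) d) q.2.2) hlen
      (hi.congr (fun x => by simp))
      (hstep.comp (PT.fst.pair ((PT.getD (hl.comp PT.fst)
        (((hlen.comp PT.fst).sub (PT.const 1)).sub (PT.fst.comp PT.snd)) (PT.const d)).pair
          (PT.snd.comp PT.snd)))) ?_ S hS (fun x i _ => hb x _ (Nat.sub_le _ _))
    · refine h.congr (fun x => by simp)
    · intro x i hi'
      show ((l x).drop ((l x).length - (i + 1))).foldr (step x) (init x) =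
        step x ((l x).getD ((l x).length - 1 - i) d)
          (((l x).drop ((l x).length - i)).foldr (step x) (init x))
      have e1 : (l x).length - (i + 1) = (l x).length - 1 - i := by omega
      have e2 : (l x).length - i = (l x).length - 1 - i + 1 := by omega
      have h3 : (l x).length - 1 - i < (l x).length := by omega
      rw [e1, e2, List.drop_eq_getElem_cons h3, List.foldr_cons]
      simp [h3]
  · have he : IsEmpty β := not_nonempty_iff.mp hne
    refine hi.congr (fun x => ?_)
    cases h : l x with
    | nil => rfl
    | cons a _ => exact (he.false a).elim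

/-! ### Filter -/

lemma sz_filter_le (l : List β) (p : β → Bool) : sz (l.filter p) ≤ sz l := by
  induction l with
  | nil => simp
  | cons a l ih =>
    rw [List.filter_cons, sz_cons]
    split_ifs
    · rw [sz_cons]; omega
    · omega

theorem filter {l : α → List β} {p : α → β → Bool} (hl : PT l)
    (hp : PT (fun q : α × β => p q.1 q.2)) : PT (fun x => (l x).filter (p x)) := by
  have h := foldr (l := l) (init := fun _ : α => ([] : List β))
    (step := fun x a r => bif p x a then a :: r else r) hl (PT.const [])
    (PT.ite' (hp.comp (PT.fst.pair (PT.fst.comp PT.snd)))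
      (PT.cons (PT.fst.comp PT.snd) (PT.snd.comp PT.snd)) (PT.snd.comp PT.snd))
    (fun x => sz (l x)) hl.size ?_
  · refine h.congr (fun x => ?_)
    induction l x with
    | nil => rfl
    | cons a r ih =>
      rw [List.foldr_cons, ih, List.filter_cons]
      cases p x a <;> rfl
  · intro x i _
    have key : ∀ r : List β, r.foldr (fun a r => bif p x a then a :: r else r) [] =
        r.filter (p x) := by
      intro r
      induction r with
      | nil => rfl
      | cons a r ih =>
        rw [List.foldr_cons, ih, List.filter_cons]
        cases p x a <;> rfl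
    rw [key]
    exact (sz_filter_le _ _).trans (sz_drop_le _ _)

/-! ### FlatMap -/

lemma sz_append (l l' : List β) : sz (l ++ l') + 1 = sz l + sz l' := by
  induction l with
  | nil => rw [List.nil_append, sz_nil]; omega
  | cons a l ih =>
    rw [List.cons_append, sz_cons, sz_cons]
    omega

theorem flatMap {l : α → List β} {f : α → β → List γ} (hl : PT l)
    (hf : PT (fun p : α × β => f p.1 p.2)) : PT (fun x => (l x).flatMap (f x)) := by
  obtain ⟨c, hc⟩ := hf.size
  let M : α → ℕ := fun x => (sz x + sz (l x) + 1 + 2) ^ c
  have hM : PB M := by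
    obtain ⟨d, hd⟩ : PB (fun x : α => sz x + sz (l x) + 1) := (PB.self.add hl.size).add (PB.const 1)
    refine ⟨(d + 1) * c, fun x => ?_⟩
    have h3 := base_ge x
    have h4 : 1 ≤ (sz x + 2) ^ d := Nat.one_le_pow _ _ (by omega)
    have h5 : sz x + sz (l x) + 1 + 2 ≤ (sz x + 2) ^ (d + 1) := by
      rw [pow_succ]
      have := hd x
      simp only at this
      nlinarith
    rw [pow_mul]
    exact Nat.pow_le_pow_left h5 c
  have hbd : ∀ x, ∀ a ∈ l x, sz (f x a) ≤ M x := by
    intro x a ha
    refine (hc (x, a)).trans (Nat.pow_le_pow_left ?_ c)
    rw [sz_pair]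
    have := sz_mem_le ha
    omega
  have h := foldr (l := l) (init := fun _ : α => ([] : List γ))
    (step := fun x a r => f x a ++ r) hl (PT.const [])
    (append (hf.comp (PT.fst.pair (PT.fst.comp PT.snd))) (PT.snd.comp PT.snd))
    (fun x => (l x).length * M x + 1) (((length hl).value.mul hM).add (PB.const 1)) ?_
  · refine h.congr (fun x => ?_)
    induction l x with
    | nil => rfl
    | cons a r ih => rw [List.foldr_cons, ih, List.flatMap_cons]
  · intro x i _
    have key : ∀ r : List β, (∀ a ∈ r, sz (f x a) ≤ M x) →
        sz (r.foldr (fun a r => f x a ++ r) []) ≤ r.length * M x + 1 := by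
      intro r
      induction r with
      | nil => intro _; simp [sz_nil]
      | cons a r ih =>
        intro hr
        rw [List.foldr_cons, List.length_cons]
        have h1 := sz_append (f x a) (r.foldr (fun a r => f x a ++ r) [])
        have h2 := hr a (by simp)
        have h3 := ih (fun b hb => hr b (by simp [hb]))
        have : (r.length + 1) * M x = r.length * M x + M x := by ring
        omega
    refine (key _ (fun a ha => hbd x a (List.mem_of_mem_drop ha))).trans ?_
    have : ((l x).drop i).length * M x ≤ (l x).length * M x :=
      Nat.mul_le_mul_right _ (by rw [List.length_drop]; omega)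
    omega

/-! ### Further list operations -/

theorem take {l : α → List β} {n : α → ℕ} (hl : PT l) (hn : PT n) :
    PT (fun x => (l x).take (n x)) := by
  by_cases hne : Nonempty β
  · obtain ⟨d⟩ := hne
    have hmin : PT (fun x => if n x ≤ (l x).length then n x else (l x).length) :=
      PT.ite (PTp.le hn (length hl)) hn (length hl)
    have h := PT.mapRange hmin (f := fun x i => (l x).getD i d)
      (PT.getD (hl.comp PT.fst) PT.snd (PT.const d))
    refine h.congr (fun x => ?_)
    apply List.ext_getElem
    · simp only [List.length_map, List.length_range, List.length_take]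
      split_ifs <;> omega
    · intro i h1 h2
      have hi : i < (l x).length := by
        rw [List.length_take] at h2
        omega
      simp [hi]
  · have he : IsEmpty β := not_nonempty_iff.mp hne
    refine (PT.const ([] : List β)).congr (fun x => ?_)
    cases h : (l x).take (n x) with
    | nil => rfl
    | cons a _ => exact (he.false a).elim

theorem drop {l : α → List β} {n : α → ℕ} (hl : PT l) (hn : PT n) :
    PT (fun x => (l x).drop (n x)) := PT.drop'.comp (hl.pair hn)

theorem reverse {l : α → List β} (hl : PT l) : PT (fun x => (l x).reverse) := by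
  by_cases hne : Nonempty β
  · obtain ⟨d⟩ := hne
    have h := PT.mapRange (length hl) (f := fun x i => (l x).getD ((l x).length - 1 - i) d)
      (PT.getD (hl.comp PT.fst) (((length (hl.comp PT.fst)).sub (PT.const 1)).sub PT.snd)
        (PT.const d))
    refine h.congr (fun x => ?_)
    apply List.ext_getElem
    · simp
    · intro i h1 h2
      have hi : i < (l x).length := by simpa using h2
      simp only [List.getElem_map, List.getElem_range, List.getElem_reverse]
      have h3 : (l x).length - 1 - i < (l x).length := by omega
      simp [h3]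
  · have he : IsEmpty β := not_nonempty_iff.mp hne
    refine (PT.const ([] : List β)).congr (fun x => ?_)
    cases h : (l x).reverse with
    | nil => rfl
    | cons a _ => exact (he.false a).elim

theorem replicate {n : α → ℕ} {f : α → β} (hn : PT n) (hf : PT f) :
    PT (fun x => List.replicate (n x) (f x)) := by
  refine (PT.mapRange hn (f := fun x _ => f x) (hf.comp PT.fst)).congr (fun x => ?_)
  apply List.ext_getElem <;> simp

theorem range {n : α → ℕ} (hn : PT n) : PT (fun x => List.range (n x)) :=
  (PT.mapRange hn (f := fun _ i => i) PT.snd).congr (fun x => by simp)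

theorem singleton {f : α → β} (hf : PT f) : PT (fun x => [f x]) := PT.cons hf (PT.const [])

theorem exMem {l : α → List β} {P : α → β → Prop} (hl : PT l)
    (hP : PTp (fun p : α × β => P p.1 p.2)) : PTp (fun x => ∃ a ∈ l x, P x a) := by
  by_cases hne : Nonempty β
  · obtain ⟨d⟩ := hne
    have h := PTp.bex (n := fun x => (l x).length) (P := fun x i => P x ((l x).getD i d))
      (length hl) (hP.comp (PT.fst.pair (PT.getD (hl.comp PT.fst) PT.snd (PT.const d))))
    refine h.congr (fun x => ?_)
    constructor
    · rintro ⟨i, hi, h1⟩
      refine ⟨(l x)[i], List.getElem_mem hi, ?_⟩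
      simpa [hi] using h1
    · rintro ⟨a, ha, h1⟩
      obtain ⟨i, hi, rfl⟩ := List.getElem_of_mem ha
      exact ⟨i, hi, by simpa [hi] using h1⟩
  · have he : IsEmpty β := not_nonempty_iff.mp hne
    refine (PTp.const False).congr (fun x => ?_)
    constructor
    · exact False.elim
    · rintro ⟨a, _⟩
      exact (he.false a).elim

theorem allMem {l : α → List β} {P : α → β → Prop} (hl : PT l)
    (hP : PTp (fun p : α × β => P p.1 p.2)) : PTp (fun x => ∀ a ∈ l x, P x a) :=
  (exMem hl (P := fun x a => ¬ P x a) hP.not).not.congr (fun x => by push Not; rfl)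

end Pool.Agent.H60.Lists
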