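import Pool.Agent.H48.SymDP.Irr.Model

/-!
# Valuation estimates for the sections of an elementary modification
-/

open Polynomial

namespace Pool.Agent.H60.PB

open Pool.Agent.H48.SymDP

section PLapi

variable {F L : Type*} [Field F] [Field L] [Algebra F L] (E : PL F L)

lemma ord_one : E.ord 1 = 0 := by
  have h := E.ord_base 1 one_ne_zero
  rwa [map_one] at h

lemma ord_neg (a : L) : E.ord (-a) = E.ord a := by
  by_cases ha : a = 0
  · subst ha; simp
  · have h := E.ord_mul (a := algebraMap F L (-1)) (b := a) (by simp) ha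
    rw [E.ord_base (-1) (by simp)] at h
    simpa using h

lemma ord_inv {a : L} (ha : a ≠ 0) : E.ord a⁻¹ = - E.ord a := by
  have h := E.ord_mul ha (inv_ne_zero ha)
  rw [mul_inv_cancel₀ ha, ord_one] at h
  omega

lemma ord_div {a b : L} (ha : a ≠ 0) (hb : b ≠ 0) : E.ord (a / b) = E.ord a - E.ord b := by
  rw [div_eq_mul_inv, E.ord_mul ha (inv_ne_zero hb), ord_inv E hb]; ring

lemma ord_pow {a : L} (ha : a ≠ 0) (n : ℕ) : E.ord (a ^ n) = n * E.ord a := by
  induction n with
  | zero => simp [ord_one]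
  | succ n ih =>
    rw [pow_succ, E.ord_mul (pow_ne_zero _ ha) ha, ih]; push_cast; ring

variable {E}

lemma ge_zero (n : ℤ) : E.ge n 0 := Or.inl rfl

lemma ge_mono {n p : ℤ} {a : L} (h : E.ge n a) (hp : p ≤ n) : E.ge p a := by
  rcases h with h | h
  · exact Or.inl h
  · exact Or.inr (hp.trans h)

lemma ge_add {n : ℤ} {a b : L} (ha : E.ge n a) (hb : E.ge n b) : E.ge n (a + b) := by
  rcases ha with rfl | ha
  · simpa using hb
  rcases hb with rfl | hb
  · rw [add_zero]; exact Or.inr ha
  by_cases h0 : a = 0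
  · subst h0; rw [zero_add]; exact Or.inr hb
  by_cases h1 : b = 0
  · subst h1; rw [add_zero]; exact Or.inr ha
  by_cases h2 : a + b = 0
  · exact Or.inl h2
  · exact Or.inr ((le_min ha hb).trans (E.ord_add h0 h1 h2))

lemma ge_neg {n : ℤ} {a : L} (ha : E.ge n a) : E.ge n (-a) := by
  rcases ha with rfl | ha
  · exact Or.inl (by simp)
  · exact Or.inr (by rwa [ord_neg])

lemma ge_sub {n : ℤ} {a b : L} (ha : E.ge n a) (hb : E.ge n b) : E.ge n (a - b) := by
  rw [sub_eq_add_neg]; exact ge_add ha (ge_neg hb)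

lemma ge_mul {n p : ℤ} {a b : L} (ha : E.ge n a) (hb : E.ge p b) : E.ge (n + p) (a * b) := by
  by_cases h0 : a = 0
  · subst h0; exact Or.inl (by simp)
  by_cases h1 : b = 0
  · subst h1; exact Or.inl (by simp)
  have ha' := ha.resolve_left h0
  have hb' := hb.resolve_left h1
  exact Or.inr (by rw [E.ord_mul h0 h1]; omega)

lemma ge_mul' {n p r : ℤ} {a b : L} (ha : E.ge n a) (hb : E.ge p b) (h : r ≤ n + p) :
    E.ge r (a * b) := ge_mono (ge_mul ha hb) h

lemma ge_one : E.ge 0 (1 : L) := Or.inr (by rw [ord_one])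

lemma ge_pow {n : ℤ} {a : L} (ha : E.ge n a) (k : ℕ) : E.ge (k * n) (a ^ k) := by
  induction k with
  | zero => simpa using ge_one
  | succ k ih => rw [pow_succ]; exact ge_mul' ih ha (by push_cast; ring_nf; exact le_refl _)

lemma ge_pow' {n p : ℤ} {a : L} (ha : E.ge n a) (k : ℕ) (h : p ≤ k * n) : E.ge p (a ^ k) :=
  ge_mono (ge_pow ha k) h

lemma ge_base (c : F) : E.ge 0 (algebraMap F L c) := by
  by_cases hc : c = 0
  · subst hc; exact Or.inl (by simp)
  · exact Or.inr (by rw [E.ord_base c hc])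

lemma ge_sum {ι : Type*} {n : ℤ} (s : Finset ι) (f : ι → L) (h : ∀ i ∈ s, E.ge n (f i)) :
    E.ge n (∑ i ∈ s, f i) := by
  classical
  induction s using Finset.induction_on with
  | empty => simpa using ge_zero n
  | insert a s ha ih =>
    rw [Finset.sum_insert ha]
    exact ge_add (h a (Finset.mem_insert_self _ _))
      (ih fun i hi => h i (Finset.mem_insert_of_mem hi))

lemma ge_of_sq {n : ℤ} {a : L} (h : E.ge (2 * n) (a ^ 2)) : E.ge n a := by
  by_cases h0 : a = 0
  · exact Or.inl h0
  · have h' := h.resolve_left (pow_ne_zero _ h0)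
    rw [ord_pow E h0] at h'
    exact Or.inr (by push_cast at h'; omega)

lemma ge_div {n p : ℤ} {a b : L} (ha : E.ge n a) (hb : b ≠ 0) (h : p ≤ n - E.ord b) :
    E.ge p (a / b) := by
  by_cases h0 : a = 0
  · subst h0; exact Or.inl (by simp)
  · have ha' := ha.resolve_left h0
    exact Or.inr (by rw [ord_div E h0 hb]; omega)

lemma ge_self (a : L) : E.ge (E.ord a) a := Or.inr le_rfl

lemma ord_add_eq {a b : L} (ha : a ≠ 0) (hb : E.ge (E.ord a + 1) b) :
    a + b ≠ 0 ∧ E.ord (a + b) = E.ord a := by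
  by_cases h0 : b = 0
  · subst h0; simp [ha]
  have hb' := hb.resolve_left h0
  have hab : a + b ≠ 0 := by
    intro h
    have : b = -a := by linear_combination h
    rw [this, ord_neg] at hb'
    omega
  refine ⟨hab, le_antisymm ?_ ?_⟩
  · by_contra hlt
    push Not at hlt
    have h1 := E.ord_add (a := a + b) (b := -b) hab (neg_ne_zero.2 h0) (by simpa using ha)
    rw [ord_neg, add_neg_cancel_right] at h1
    rcases min_le_iff.1 h1 with h2 | h2 <;> omega
  · exact (le_min le_rfl (by omega)).trans (E.ord_add ha h0 hab)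

lemma aeval_ge_zero {x : L} (hx : 0 ≤ E.ord x) (p : F[X]) : E.ge 0 (aeval x p) := by
  rw [aeval_eq_sum_range]
  refine ge_sum _ _ fun i _ => ?_
  rw [Algebra.smul_def]
  exact ge_mul' (ge_base _) (ge_pow' (n := 0) (p := 0) (Or.inr hx) i (by simp)) (by simp)

lemma aeval_ge_neg {x : L} (hx : E.ord x < 0) (p : F[X]) {n : ℤ} (hn : (p.natDegree : ℤ) ≤ n) :
    E.ge (n * E.ord x) (aeval x p) := by
  rw [aeval_eq_sum_range]
  refine ge_sum _ _ fun i hi => ?_
  rw [Algebra.smul_def]
  have hi' : (i : ℤ) ≤ n := by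
    have := Finset.mem_range.1 hi
    omega
  refine ge_mul' (ge_base _) (ge_pow (ge_self x) i) ?_
  rw [zero_add]
  nlinarith

/-- a polynomial of degree less than `n`. -/
lemma aeval_ge_lt {x : L} (hx : E.ord x < 0) (p : F[X]) {n : ℕ} (hn : p.degree < (n : WithBot ℕ)) :
    E.ge (((n : ℤ) - 1) * E.ord x) (aeval x p) := by
  by_cases hp : p = 0
  · subst hp; exact Or.inl (by simp)
  · refine aeval_ge_neg hx p ?_
    have := (natDegree_lt_iff_degree_lt hp).2 hn
    omega

lemma ord_aeval {x : L} (hx0 : x ≠ 0) (hx : E.ord x < 0) (p : F[X]) (hp : p ≠ 0) :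
    aeval x p ≠ 0 ∧ E.ord (aeval x p) = p.natDegree * E.ord x := by
  have hc : algebraMap F L p.leadingCoeff ≠ 0 := by simpa using hp
  have ha : algebraMap F L p.leadingCoeff * x ^ p.natDegree ≠ 0 :=
    mul_ne_zero hc (pow_ne_zero _ hx0)
  have ho : E.ord (algebraMap F L p.leadingCoeff * x ^ p.natDegree) = p.natDegree * E.ord x := by
    rw [E.ord_mul hc (pow_ne_zero _ hx0), E.ord_base _ (by simpa using hp), ord_pow E hx0]
    simp
  have hp' : aeval x p = algebraMap F L p.leadingCoeff * x ^ p.natDegree + aeval x p.eraseLead := by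
    conv_lhs => rw [← eraseLead_add_C_mul_X_pow p]
    rw [map_add, map_mul, map_pow, aeval_X, aeval_C, add_comm]
  have hb : E.ge (E.ord (algebraMap F L p.leadingCoeff * x ^ p.natDegree) + 1)
      (aeval x p.eraseLead) := by
    rw [ho]
    refine ge_mono (aeval_ge_lt hx p.eraseLead (n := p.natDegree) ?_) (by nlinarith)
    rw [← degree_eq_natDegree hp]
    exact degree_eraseLead_lt hp
  have := ord_add_eq ha hb
  rw [hp', ← ho]
  exact this

end PLapi

section Main

variable {k L : Type} [Field k] [Field L] [Algebra k L] {P : k[X]} {x w : L}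

lemma aeval_ne (hinj : Function.Injective (ev x w : k[X][X] →+* L)) {p : k[X]} (hp : p ≠ 0) :
    aeval x p ≠ 0 := by
  intro h
  have h1 : ev x w (C p) = ev x w (0 : k[X][X]) := by rw [ev_C, h, map_zero]
  exact hp (C_eq_zero.1 (hinj h1))

lemma x_ne (hinj : Function.Injective (ev x w : k[X][X] →+* L)) : x ≠ 0 := by
  have h := aeval_ne hinj (p := (X : k[X])) X_ne_zero
  rwa [aeval_X] at h

lemma w_ne (hinj : Function.Injective (ev x w : k[X][X] →+* L)) : w ≠ 0 := by
  intro h
  have h1 : ev x w (X : k[X][X]) = ev x w (0 : k[X][X]) := by rw [ev_X, h, map_zero]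
  exact X_ne_zero (hinj h1)

lemma w_sub_ne (hinj : Function.Injective (ev x w : k[X][X] →+* L)) (lam : k) :
    w - algebraMap k L lam ≠ 0 := by
  intro h
  have h1 : ev x w (X - C (C lam) : k[X][X]) = ev x w (0 : k[X][X]) := by
    rw [map_sub, ev_X, ev_C, map_zero]; simpa using h
  exact X_sub_C_ne_zero (C lam) (hinj h1)

lemma val_mul (x : L) (hw : w ≠ 0) (u : Fin 3 → k[X]) :
    val P x w u * w = ev x w (C (u 1) * X ^ 2 + C (u 0) * X + C (u 2 * P) : k[X][X]) := by
  simp only [val, map_add, map_mul, ev_C, ev_X, map_pow]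
  field_simp
  ring

lemma val_ne (hinj : Function.Injective (ev x w : k[X][X] →+* L)) (hP : P ≠ 0)
    {u : Fin 3 → k[X]} (hu : u ≠ 0) : val P x w u ≠ 0 := by
  intro h
  have h1 := val_mul (P := P) x (w_ne hinj) u
  rw [h, zero_mul] at h1
  have h2 : (C (u 1) * X ^ 2 + C (u 0) * X + C (u 2 * P) : k[X][X]) = 0 := by
    apply hinj; rw [← h1, map_zero]
  apply hu
  have c0 := congrArg (fun p => coeff p 0) h2
  have c1 := congrArg (fun p => coeff p 1) h2
  have c2 := congrArg (fun p => coeff p 2) h2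
  simp [coeff_X, coeff_C] at c0 c1 c2
  ext j
  fin_cases j
  · simp [c1]
  · simp [c2]
  · have h3 : u 2 = 0 := by simpa [hP] using c0
    simp [h3]

lemma val_smul (c : k[X]) (u : Fin 3 → k[X]) : val P x w (c • u) = aeval x c * val P x w u := by
  simp [val]; ring

lemma val_brk (hw : w ≠ 0) (s t : Fin 3 → k[X]) :
    val P x w (brk P s t) ^ 2 = aeval x (dsc P s s) * val P x w t ^ 2 -
      2 * aeval x (dsc P s t) * val P x w s * val P x w t +
      aeval x (dsc P t t) * val P x w s ^ 2 := by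
  simp [val, brk, dsc, map_ofNat]
  field_simp
  ring

lemma val_cramer (s t r u : Fin 3 → k[X]) :
    aeval x (dt s t r) * val P x w u = aeval x (dt u t r) * val P x w s +
      aeval x (dt s u r) * val P x w t + aeval x (dt s t u) * val P x w r := by
  have h0 := congrArg (aeval x : k[X] → L) (cramer s t r u 0)
  have h1 := congrArg (aeval x : k[X] → L) (cramer s t r u 1)
  have h2 := congrArg (aeval x : k[X] → L) (cramer s t r u 2)
  simp only [map_add, map_mul] at h0 h1 h2
  simp only [val]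
  linear_combination h0 + w * h1 + (aeval x P / w) * h2

/-- Sections are `k[x]`-combinations of `s, t, r`. -/
lemma exists_comb [CharZero k] {lam : k} {Q σ : k[X]} (hPQ : IsCoprime P Q) (hQ : Q ≠ 0)
    {s t r : Fin 3 → k[X]} (hs : InT P (C lam) Q σ s) (ht : InT P (C lam) Q σ t)
    (hr : InT P (C lam) Q σ r) {Δ : k} (hΔ : Δ ≠ 0) (hd : dt s t r = C Δ * Q ^ 3)
    {u : Fin 3 → k[X]} (hu : InT P (C lam) Q σ u) :
    ∃ c : Fin 3 → k[X], val P x w u = aeval x (c 0) * val P x w s + aeval x (c 1) * val P x w t +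
      aeval x (c 2) * val P x w r := by
  obtain ⟨c0, h0⟩ := hu.dt_dvd hPQ ht hr
  obtain ⟨c1, h1⟩ := hs.dt_dvd hPQ hu hr
  obtain ⟨c2, h2⟩ := hs.dt_dvd hPQ ht hu
  refine ⟨![C Δ⁻¹ * c0, C Δ⁻¹ * c1, C Δ⁻¹ * c2], ?_⟩
  have hu' : ∀ j, u j = C Δ⁻¹ * c0 * s j + C Δ⁻¹ * c1 * t j + C Δ⁻¹ * c2 * r j := by
    intro j
    have h := cramer s t r u j
    rw [hd, h0, h1, h2] at h
    have hC : C Δ⁻¹ * C Δ = (1 : k[X]) := by rw [← C_mul, inv_mul_cancel₀ hΔ, C_1]
    refine mul_left_cancel₀ (pow_ne_zero 3 hQ) ?_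
    linear_combination C Δ⁻¹ * h - Q ^ 3 * u j * hC
  simp only [val, hu', Matrix.cons_val_zero, Matrix.cons_val_one, Matrix.cons_val, map_add, map_mul]
  ring

/-- The relation between `A` and `B` in values. -/
lemma rel_val {m : ℕ} {A : Fin 2 → k[X][X]} {lam : k} {Q σ Θ : k[X]}
    {B : Fin 2 → k[X][X]} (M : Model P m A lam Q σ Θ B)
    (hinj : Function.Injective (ev x w : k[X][X] →+* L)) (i : Fin 2) :
    ev x w (A i) = aeval x Θ * (w - algebraMap k L lam) ^ (2 * m) *
      ev x (((w - algebraMap k L lam)⁻¹ - aeval x σ) / aeval x Q) (B i) := by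
  have hw := w_sub_ne hinj lam
  have hQ := aeval_ne hinj M.Q_ne
  set w' := ((w - algebraMap k L lam)⁻¹ - aeval x σ) / aeval x Q with hw'
  have h := congrArg (ev x w' : k[X][X] → L) (M.rel i)
  simp only [hev, map_sum, map_mul, map_pow, map_add, ev_C, ev_X, map_one, aeval_C,
    Polynomial.algebraMap_eq] at h
  have h1 : aeval x σ + aeval x Q * w' = (w - algebraMap k L lam)⁻¹ := by
    rw [hw']; field_simp; ring
  rw [h1] at h
  have h2 : algebraMap k L lam * (w - algebraMap k L lam)⁻¹ + 1 =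
      (w - algebraMap k L lam)⁻¹ * w := by field_simp; ring
  rw [h2] at h
  have h3 : ev x w (A i) = ∑ j ∈ Finset.range (2 * m + 1), aeval x ((A i).coeff j) * w ^ j := by
    have := M.natDegree_le i
    conv_lhs => rw [(A i).as_sum_range' (2 * m + 1) (by omega)]
    simp [map_sum, ← C_mul_X_pow_eq_monomial]
  have h4 : ∑ j ∈ Finset.range (2 * m + 1), aeval x ((A i).coeff j) *
      ((w - algebraMap k L lam)⁻¹ * w) ^ j * (w - algebraMap k L lam)⁻¹ ^ (2 * m - j) =
      (w - algebraMap k L lam)⁻¹ ^ (2 * m) * ev x w (A i) := by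
    rw [h3, Finset.mul_sum]
    refine Finset.sum_congr rfl fun j hj => ?_
    have hj' : j ≤ 2 * m := by have := Finset.mem_range.1 hj; omega
    rw [mul_pow, show (w - algebraMap k L lam)⁻¹ ^ (2 * m) =
      (w - algebraMap k L lam)⁻¹ ^ j * (w - algebraMap k L lam)⁻¹ ^ (2 * m - j) by
        rw [← pow_add, Nat.add_sub_cancel' hj']]
    ring
  rw [h4] at h
  rw [mul_right_comm, ← h]
  rw [inv_pow]
  field_simp

lemma ev_sum (x w : L) (A : k[X][X]) {n : ℕ} (hn : A.natDegree ≤ n) :
    ev x w A = ∑ j ∈ Finset.range (n + 1), aeval x (A.coeff j) * w ^ j := by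
  conv_lhs => rw [A.as_sum_range' (n + 1) (by omega)]
  simp [map_sum, ← C_mul_X_pow_eq_monomial]

variable {E : PL k L}

lemma ge_mul_pow {g y : L} {m l : ℕ} (h0 : E.ge 0 g) (h1 : E.ge 0 (g * y)) (h2 : E.ge 0 (g * y ^ 2))
    (hl : l ≤ 2 * m) : E.ge 0 (g ^ m * y ^ l) := by
  rcases Nat.even_or_odd' l with ⟨a, rfl | rfl⟩
  · have e : g ^ m * y ^ (2 * a) = (g * y ^ 2) ^ a * g ^ (m - a) := by
      rw [show g ^ m = g ^ a * g ^ (m - a) by rw [← pow_add]; congr 1; omega]
      ring
    rw [e]
    exact ge_mul' (ge_pow' (p := 0) h2 _ (by simp)) (ge_pow' (p := 0) h0 _ (by simp)) (by simp)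
  · have e : g ^ m * y ^ (2 * a + 1) = (g * y ^ 2) ^ a * (g * y) * g ^ (m - a - 1) := by
      rw [show g ^ m = g ^ a * g * g ^ (m - a - 1) by
        rw [← pow_succ, ← pow_add]; congr 1; omega]
      ring
    rw [e]
    exact ge_mul' (ge_mul' (r := 0) (ge_pow' (p := 0) h2 _ (by simp)) h1 (by simp))
      (ge_pow' (p := 0) h0 _ (by simp)) (by simp)

theorem bound_nonneg [CharZero k] (hP0 : P ≠ 0) {m : ℕ} {A : Fin 2 → k[X][X]} {lam : k}
    {Q σ Θ : k[X]} {B : Fin 2 → k[X][X]} (M : Model P m A lam Q σ Θ B)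
    (hinj : Function.Injective (ev x w : k[X][X] →+* L))
    {s t r : Fin 3 → k[X]} (hs : InT P (C lam) Q σ s) (ht : InT P (C lam) Q σ t)
    (hr : InT P (C lam) Q σ r) {Δ : k} (hΔ : Δ ≠ 0) (hd : dt s t r = C Δ * Q ^ 3)
    (hs0 : val P x w s ≠ 0) (hx : 0 ≤ E.ord x)
    (hτ : E.ge 0 (val P x w t / val P x w s)) (hρ : E.ge 0 (val P x w r / val P x w s))
    (i : Fin 2) :
    E.ge 0 ((aeval x Q) ^ m * ev x w (A i) /
      (aeval x Θ * w ^ m * (val P x w s / aeval x Q) ^ m)) := by
  have hw := w_ne hinj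
  have hwl := w_sub_ne hinj lam
  have hQ := aeval_ne hinj M.Q_ne
  have hTh := aeval_ne hinj M.Th_ne
  have hPx := aeval_ne hinj hP0
  have key : ∀ u : Fin 3 → k[X], InT P (C lam) Q σ u → E.ge 0 (val P x w u / val P x w s) := by
    intro u hu
    obtain ⟨c, hc⟩ := exists_comb (x := x) (w := w) M.coprime_Q M.Q_ne hs ht hr hΔ hd hu
    have e : val P x w u / val P x w s = aeval x (c 0) + aeval x (c 1) *
        (val P x w t / val P x w s) + aeval x (c 2) * (val P x w r / val P x w s) := by
      rw [hc]; field_simp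
    rw [e]
    exact ge_add (ge_add (aeval_ge_zero hx _) (ge_mul' (aeval_ge_zero hx _) hτ (by simp)))
      (ge_mul' (aeval_ge_zero hx _) hρ (by simp))
  by_cases hPo : E.ord (aeval x P) = 0
  · set w' := ((w - algebraMap k L lam)⁻¹ - aeval x σ) / aeval x Q with hw'
    set g := aeval x Q ^ 2 * (w - algebraMap k L lam) ^ 2 / (w * val P x w s) with hg
    have hgl : ∀ l : Fin 3, E.ge 0 (g * w' ^ (l : ℕ)) := by
      intro l
      have e : g * w' ^ (l : ℕ) = (val P x w (Pe P (C lam) Q σ l) / val P x w s) / aeval x P := by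
        have e1 : val P x w (Pe P (C lam) Q σ l) = aeval x P * (aeval x Q ^ 2 *
            (w - algebraMap k L lam) ^ 2 / w * w' ^ (l : ℕ)) := by
          fin_cases l
          · simp [val, Pe, map_ofNat]
            field_simp
            ring
          · simp [val, Pe, hw', map_ofNat]
            field_simp
            ring
          · simp [val, Pe, hw', map_ofNat]
            field_simp
            ring
        rw [e1, hg]
        field_simp
      rw [e]
      exact ge_div (key _ (InT_Pe _ _ _ _ _)) hPx (by rw [hPo]; simp)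
    have h0 := hgl 0
    have h1 := hgl 1
    have h2 := hgl 2
    simp only [Fin.val_zero, pow_zero, mul_one, Fin.val_one, pow_one, Fin.val_two] at h0 h1 h2
    have e : (aeval x Q) ^ m * ev x w (A i) /
        (aeval x Θ * w ^ m * (val P x w s / aeval x Q) ^ m) =
        ∑ l ∈ Finset.range (2 * m + 1), aeval x ((B i).coeff l) * (g ^ m * w' ^ l) := by
      rw [rel_val M hinj i, ← hw', ev_sum x w' (B i) (M.natDegree_B_le i)]
      have e2 : ∑ l ∈ Finset.range (2 * m + 1), aeval x ((B i).coeff l) * (g ^ m * w' ^ l) =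
        g ^ m * ∑ l ∈ Finset.range (2 * m + 1), aeval x ((B i).coeff l) * w' ^ l := by
        rw [Finset.mul_sum]
        exact Finset.sum_congr rfl fun l _ => by ring
      rw [e2, hg]
      simp only [div_pow, mul_pow, ← pow_mul]
      field_simp
      ring
    rw [e]
    refine ge_sum _ _ fun l hl => ge_mul' (aeval_ge_zero hx _)
      (ge_mul_pow h0 h1 h2 (l := l) (m := m) ?_) (by simp)
    have := Finset.mem_range.1 hl
    omega
  · have hTho : E.ord (aeval x Θ) = 0 := by
      obtain ⟨a, b, hab⟩ := M.coprime_Th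
      have h1 := (aeval_ge_zero hx P).resolve_left hPx
      have h2 := (aeval_ge_zero hx Θ).resolve_left hTh
      by_contra h3
      have h4 : E.ge 1 (1 : L) := by
        have e : (1 : L) = aeval x a * aeval x P + aeval x b * aeval x Θ := by
          rw [← map_mul, ← map_mul, ← map_add, hab, map_one]
        rw [e]
        exact ge_add (ge_mul' (aeval_ge_zero hx a) (ge_self _) (by omega))
          (ge_mul' (aeval_ge_zero hx b) (ge_self _) (by omega))
      have h5 := h4.resolve_left one_ne_zero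
      rw [ord_one] at h5
      omega
    set T := aeval x Q ^ 2 / val P x w s with hT
    have h0 : E.ge 0 T := by
      have h := key (Q ^ 2 • ![1, 0, 0]) (InT_smul_sq _)
      rw [val_smul] at h
      simpa [val, hT] using h
    have h1 : E.ge 0 (T * w) := by
      have h := key (Q ^ 2 • ![0, 1, 0]) (InT_smul_sq _)
      rw [val_smul] at h
      have e : T * w = aeval x (Q ^ 2) * val P x w ![0, 1, 0] / val P x w s := by
        simp [val, hT]; ring
      rwa [e]
    have h2 : E.ge 0 (T * (aeval x P / w)) := by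
      have h := key (Q ^ 2 • ![0, 0, 1]) (InT_smul_sq _)
      rw [val_smul] at h
      have e : T * (aeval x P / w) = aeval x (Q ^ 2) * val P x w ![0, 0, 1] / val P x w s := by
        simp [val, hT]; ring
      rwa [e]
    have e : (aeval x Q) ^ m * ev x w (A i) /
        (aeval x Θ * w ^ m * (val P x w s / aeval x Q) ^ m) =
        (∑ j ∈ Finset.range (2 * m + 1), aeval x ((A i).coeff j) * (w ^ j / w ^ m * T ^ m)) /
          aeval x Θ := by
      rw [ev_sum x w (A i) (M.natDegree_le i)]
      have e2 : ∑ j ∈ Finset.range (2 * m + 1), aeval x ((A i).coeff j) *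
          (w ^ j / w ^ m * T ^ m) =
        T ^ m / w ^ m * ∑ l ∈ Finset.range (2 * m + 1), aeval x ((A i).coeff l) * w ^ l := by
        rw [Finset.mul_sum]
        exact Finset.sum_congr rfl fun l _ => by ring
      rw [e2, hT]
      simp only [div_pow, ← pow_mul]
      field_simp
      ring
    rw [e]
    refine ge_div (n := 0) (ge_sum _ _ fun j hj => ?_) hTh (by rw [hTho]; simp)
    have hj' : j ≤ 2 * m := by have := Finset.mem_range.1 hj; omega
    rcases le_or_gt m j with hmj | hmj
    · have e3 : w ^ j / w ^ m * T ^ m = (T * w) ^ (j - m) * T ^ (2 * m - j) := by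
        rw [show T ^ m = T ^ (j - m) * T ^ (2 * m - j) by rw [← pow_add]; congr 1; omega,
          show w ^ j = w ^ m * w ^ (j - m) by rw [← pow_add]; congr 1; omega, mul_pow]
        field_simp
      rw [e3]
      exact ge_mul' (aeval_ge_zero hx _) (ge_mul' (r := 0) (ge_pow' (p := 0) h1 _ (by simp))
        (ge_pow' (p := 0) h0 _ (by simp)) (by simp)) (by simp)
    · obtain ⟨c, hc⟩ := M.dvd_coeff i j hmj.le
      have e3 : aeval x ((A i).coeff j) * (w ^ j / w ^ m * T ^ m) =
          aeval x c * ((T * (aeval x P / w)) ^ (m - j) * T ^ j) := by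
        rw [hc, show T ^ m = T ^ (m - j) * T ^ j by rw [← pow_add]; congr 1; omega,
          show w ^ m = w ^ (m - j) * w ^ j by rw [← pow_add]; congr 1; omega, map_mul, map_pow]
        simp only [mul_pow, div_pow]
        field_simp
      rw [e3]
      exact ge_mul' (aeval_ge_zero hx _) (ge_mul' (r := 0) (ge_pow' (p := 0) h2 _ (by simp))
        (ge_pow' (p := 0) h0 _ (by simp)) (by simp)) (by simp)

theorem bound_neg {m : ℕ} {A : Fin 2 → k[X][X]} {lam : k} (hP : P.natDegree = 3)
    {Q σ Θ : k[X]} {B : Fin 2 → k[X][X]} (M : Model P m A lam Q σ Θ B) {δ : ℕ}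
    (hδ : DegLE m A δ) (hinj : Function.Injective (ev x w : k[X][X] →+* L))
    {v : L} (hv : v ≠ 0) (hx : E.ord x < 0)
    (h0 : E.ge (E.ord x) (aeval x Q / v * x ^ 2)) (h1 : E.ge (E.ord x) (aeval x Q / v * w))
    (h2 : E.ge (E.ord x) (aeval x Q / v * (aeval x P / w))) (i : Fin 2) :
    E.ge (((m : ℤ) + (δ - 4 * m + m * Q.natDegree - Θ.natDegree)) * E.ord x)
      ((aeval x Q) ^ m * ev x w (A i) / (aeval x Θ * w ^ m * (v / aeval x Q) ^ m)) := by
  have hw := w_ne hinj
  have hx0 := x_ne hinj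
  have hQ := aeval_ne hinj M.Q_ne
  have hTh := aeval_ne hinj M.Th_ne
  have hP0 : P ≠ 0 := by intro h; rw [h] at hP; simp at hP
  have hQo := (ord_aeval hx0 hx Q M.Q_ne).2
  have hTo := (ord_aeval hx0 hx Θ M.Th_ne).2
  set o := E.ord x with ho
  set T := aeval x Q / v with hT
  have e : (aeval x Q) ^ m * ev x w (A i) / (aeval x Θ * w ^ m * (v / aeval x Q) ^ m) =
      (aeval x Q ^ m * ∑ j ∈ Finset.range (2 * m + 1), aeval x ((A i).coeff j) *
        (w ^ j / w ^ m * T ^ m)) / aeval x Θ := by
    rw [ev_sum x w (A i) (M.natDegree_le i)]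
    have e2 : ∑ j ∈ Finset.range (2 * m + 1), aeval x ((A i).coeff j) *
        (w ^ j / w ^ m * T ^ m) =
      T ^ m / w ^ m * ∑ l ∈ Finset.range (2 * m + 1), aeval x ((A i).coeff l) * w ^ l := by
      rw [Finset.mul_sum]
      exact Finset.sum_congr rfl fun l _ => by ring
    rw [e2, hT]
    simp only [div_pow]
    field_simp
  rw [e]
  have hterm : ∀ j ∈ Finset.range (2 * m + 1), E.ge (((δ : ℤ) - 3 * m) * o)
      (aeval x ((A i).coeff j) * (w ^ j / w ^ m * T ^ m)) := by
    intro j hj
    have hj' : j ≤ 2 * m := by have := Finset.mem_range.1 hj; omega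
    by_cases ha : (A i).coeff j = 0
    · rw [ha, map_zero, zero_mul]; exact ge_zero _
    obtain ⟨d1, d2⟩ := hδ i j ha
    rcases le_or_gt m j with hmj | hmj
    · have e3 : aeval x ((A i).coeff j) * (w ^ j / w ^ m * T ^ m) = aeval x ((A i).coeff j) *
          ((T * w) ^ (j - m) * (T * x ^ 2) ^ (2 * m - j)) / x ^ (2 * (2 * m - j)) := by
        rw [show T ^ m = T ^ (j - m) * T ^ (2 * m - j) by rw [← pow_add]; congr 1; omega,
          show w ^ j = w ^ m * w ^ (j - m) by rw [← pow_add]; congr 1; omega]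
        simp only [mul_pow, ← pow_mul]
        field_simp
      rw [e3]
      refine ge_div (ge_mul (aeval_ge_neg hx _ le_rfl) (ge_mul (ge_pow h1 _) (ge_pow h0 _)))
        (pow_ne_zero _ hx0) ?_
      rw [ord_pow E hx0, ← ho]
      have e4 : (((A i).coeff j).natDegree : ℤ) * o + (((j - m : ℕ) : ℤ) * o +
          ((2 * m - j : ℕ) : ℤ) * o) - ((2 * (2 * m - j) : ℕ) : ℤ) * o =
          ((((A i).coeff j).natDegree : ℤ) + 2 * j - 3 * m) * o := by
        rw [Nat.cast_sub hmj]; push_cast [Nat.cast_sub hj']; ring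
      rw [e4]
      have d1' : (((A i).coeff j).natDegree : ℤ) + 2 * j ≤ δ := by exact_mod_cast d1
      nlinarith
    · obtain ⟨c, hc⟩ := M.dvd_coeff i j hmj.le
      have hc0 : c ≠ 0 := by rintro rfl; exact ha (by rw [hc, mul_zero])
      have hcd : ((A i).coeff j).natDegree = 3 * (m - j) + c.natDegree := by
        rw [hc, natDegree_mul (pow_ne_zero _ hP0) hc0, natDegree_pow, hP]; ring
      have e3 : aeval x ((A i).coeff j) * (w ^ j / w ^ m * T ^ m) = aeval x c *
          ((T * (aeval x P / w)) ^ (m - j) * (T * x ^ 2) ^ j) / x ^ (2 * j) := by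
        rw [hc, show T ^ m = T ^ (m - j) * T ^ j by rw [← pow_add]; congr 1; omega,
          show w ^ m = w ^ (m - j) * w ^ j by rw [← pow_add]; congr 1; omega, map_mul, map_pow]
        simp only [mul_pow, div_pow, ← pow_mul]
        field_simp
      rw [e3]
      refine ge_div (ge_mul (aeval_ge_neg hx _ le_rfl) (ge_mul (ge_pow h2 _) (ge_pow h0 _)))
        (pow_ne_zero _ hx0) ?_
      rw [ord_pow E hx0, ← ho]
      have d2' : (((A i).coeff j).natDegree : ℤ) + j + m ≤ δ := by exact_mod_cast d2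
      have hcd' : (((A i).coeff j).natDegree : ℤ) = 3 * (m - j) + c.natDegree := by
        rw [hcd]; push_cast [Nat.cast_sub hmj.le]; ring
      have e4 : (c.natDegree : ℤ) * o + (((m - j : ℕ) : ℤ) * o +
          (j : ℤ) * o) - ((2 * j : ℕ) : ℤ) * o =
          ((((A i).coeff j).natDegree : ℤ) + j + m - 3 * m) * o := by
        rw [hcd', Nat.cast_sub hmj.le]; push_cast; ring
      rw [e4]
      nlinarith
  refine ge_div (ge_mul (ge_pow (ge_self _) m) (ge_sum _ _ hterm)) hTh ?_
  rw [hQo, hTo]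
  exact le_of_eq (by ring)

end Main

end Pool.Agent.H60.PB

namespace Pool.Agent.H48.SymDP

open Pool.Agent.H60.PB

set_option linter.unusedSimpArgs false in
/-- Valuation estimate at the places of `L` where `τ = S₂ / S₁` is integral. -/
theorem place_bound {k L : Type} [Field k] [CharZero k] [Field L] [Algebra k L] {P : k[X]}
    (hP : P.natDegree = 3) {m : ℕ} {A : Fin 2 → k[X][X]} {lam : k} {Q σ Θ : k[X]}
    {B : Fin 2 → k[X][X]} (M : Model P m A lam Q σ Θ B) {δ : ℕ} (hδ : DegLE m A δ)
    (x w : L) (hinj : Function.Injective (ev x w : k[X][X] →+* L))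
    (s t : Fin 3 → k[X]) (hs : InT P (C lam) Q σ s) (ht : InT P (C lam) Q σ t)
    (hs0 : (s 0).degree < ((Q.natDegree + 2 : ℕ) : WithBot ℕ))
    (hs1 : (s 1).degree < (Q.natDegree : WithBot ℕ)) (hs2 : (s 2).degree < (Q.natDegree : WithBot ℕ))
    (ht0 : (t 0).degree < ((Q.natDegree + 2 : ℕ) : WithBot ℕ))
    (ht1 : (t 1).degree < (Q.natDegree : WithBot ℕ)) (ht2 : (t 2).degree < (Q.natDegree : WithBot ℕ))
    (Δ : k) (hΔ : Δ ≠ 0) (hdt : dt s t (brk P s t) = C Δ * Q ^ 4)
    (E : PL k L) (hτ : E.ge 0 (val P x w t / val P x w s)) (i : Fin 2) :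
    (0 ≤ E.ord x → E.ge 0 ((aeval x Q) ^ m * ev x w (A i) /
      (aeval x Θ * w ^ m * (val P x w s / aeval x Q) ^ m))) ∧
    (E.ord x < 0 → E.ge (((m : ℤ) + (δ - 4 * m + m * Q.natDegree - Θ.natDegree)) * E.ord x)
      ((aeval x Q) ^ m * ev x w (A i) /
      (aeval x Θ * w ^ m * (val P x w s / aeval x Q) ^ m))) := by
  have hP0 : P ≠ 0 := by intro h; rw [h] at hP; simp at hP
  have hQ0 := M.Q_ne
  have hw := w_ne hinj
  have hx0 := x_ne hinj
  have hQ := aeval_ne hinj hQ0
  obtain ⟨r, hr, hrT⟩ := hs.exists_brk hQ0 M.coprime_Q ht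
  have hd : dt s t r = C Δ * Q ^ 3 := by
    refine mul_left_cancel₀ hQ0 ?_
    have e : dt s t (Q • r) = Q * dt s t r := by simp [dt]; ring
    rw [← e, ← hr, hdt]; ring
  have hs' : s ≠ 0 := by
    rintro rfl
    have h0 : dt (0 : Fin 3 → k[X]) t r = 0 := by simp [dt]
    rw [h0] at hd
    exact (mul_ne_zero (C_ne_zero.2 hΔ) (pow_ne_zero 3 hQ0)) hd.symm
  have hv : val P x w s ≠ 0 := val_ne hinj hP0 hs'
  -- the discriminants
  obtain ⟨D11, h11⟩ := hs.dsc_dvd hs
  obtain ⟨D12, h12⟩ := hs.dsc_dvd ht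
  obtain ⟨D22, h22⟩ := ht.dsc_dvd ht
  have hsq : (val P x w r / val P x w s) ^ 2 = aeval x D11 * (val P x w t / val P x w s) ^ 2 -
      2 * aeval x D12 * (val P x w t / val P x w s) + aeval x D22 := by
    have h := val_brk (P := P) (x := x) hw s t
    rw [hr, val_smul, h11, h12, h22] at h
    simp only [map_mul, map_pow] at h
    have h' : val P x w r ^ 2 = aeval x D11 * val P x w t ^ 2 -
      2 * aeval x D12 * val P x w s * val P x w t + aeval x D22 * val P x w s ^ 2 := by
      refine mul_left_cancel₀ (pow_ne_zero 2 hQ) ?_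
      linear_combination h
    field_simp
    linear_combination h'
  constructor
  · intro hx
    have hρ : E.ge 0 (val P x w r / val P x w s) := by
      refine ge_of_sq ?_
      rw [hsq]
      have h2 : E.ge 0 (2 * aeval x D12 : L) := by
        have : (2 * aeval x D12 : L) = aeval x (2 * D12) := by simp [map_ofNat]
        rw [this]; exact aeval_ge_zero hx _
      simp only [mul_zero]
      exact ge_add (ge_sub (ge_mul' (aeval_ge_zero hx _) (ge_pow hτ 2) (by simp))
        (ge_mul' h2 hτ (by simp))) (aeval_ge_zero hx _)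
    exact bound_nonneg hP0 M hinj hs ht hrT hΔ hd hv hx hτ hρ i
  · intro hx
    set o := E.ord x with ho
    set q : ℤ := (Q.natDegree : ℤ) with hq
    have hQo : E.ord (aeval x Q) = q * o := (ord_aeval hx0 hx Q hQ0).2
    have a0 : E.ge ((q + 1) * o) (aeval x (s 0)) :=
      ge_mono (aeval_ge_lt hx _ hs0) (le_of_eq (by push_cast; ring))
    have a1 : E.ge ((q - 1) * o) (aeval x (s 1)) := aeval_ge_lt hx _ hs1
    have a2 : E.ge ((q - 1) * o) (aeval x (s 2)) := aeval_ge_lt hx _ hs2
    have b0 : E.ge ((q + 1) * o) (aeval x (t 0)) :=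
      ge_mono (aeval_ge_lt hx _ ht0) (le_of_eq (by push_cast; ring))
    have b1 : E.ge ((q - 1) * o) (aeval x (t 1)) := aeval_ge_lt hx _ ht1
    have b2 : E.ge ((q - 1) * o) (aeval x (t 2)) := aeval_ge_lt hx _ ht2
    have hPg : E.ge (3 * o) (aeval x P) := aeval_ge_neg hx _ (by rw [hP]; norm_num)
    have two : E.ge 0 (2 : L) := by
      have := ge_base (E := E) (2 : k)
      rwa [map_ofNat] at this
    have hD : ∀ (u v : Fin 3 → k[X]) (D : k[X]), E.ge ((q + 1) * o) (aeval x (u 0)) →
        E.ge ((q - 1) * o) (aeval x (u 1)) → E.ge ((q - 1) * o) (aeval x (u 2)) →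
        E.ge ((q + 1) * o) (aeval x (v 0)) →
        E.ge ((q - 1) * o) (aeval x (v 1)) → E.ge ((q - 1) * o) (aeval x (v 2)) →
        dsc P u v = Q ^ 2 * D → E.ge (2 * o) (aeval x D) := by
      intro u v D u0 u1 u2 v0 v1 v2 h
      have e : aeval x D = (aeval x (u 0) * aeval x (v 0) - 2 * aeval x P *
          (aeval x (u 1) * aeval x (v 2) + aeval x (u 2) * aeval x (v 1))) / aeval x Q ^ 2 := by
        have h' := congrArg (aeval x : k[X] → L) h
        simp only [dsc, map_sub, map_add, map_mul, map_pow, map_ofNat] at h'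
        rw [h']
        field_simp
      rw [e]
      refine ge_div (n := (2 * q + 2) * o) (ge_sub (ge_mul' u0 v0 (le_of_eq (by ring)))
        (ge_mul' (ge_mul two hPg) (ge_add (ge_mul u1 v2) (ge_mul u2 v1)) ?_)) (pow_ne_zero _ hQ) ?_
      · nlinarith
      · rw [ord_pow E hQ, hQo]; exact le_of_eq (by push_cast; ring)
    have d11 := hD s s D11 a0 a1 a2 a0 a1 a2 h11
    have d12 := hD s t D12 a0 a1 a2 b0 b1 b2 h12
    have d22 := hD t t D22 b0 b1 b2 b0 b1 b2 h22
    have hρ : E.ge o (val P x w r / val P x w s) := by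
      refine ge_of_sq ?_
      rw [hsq]
      exact ge_add (ge_sub (ge_mul' d11 (ge_pow hτ 2) (by simp))
        (ge_mul' (ge_mul two d12) hτ (by simp))) d22
    have hrj : ∀ j, aeval x (r j) = aeval x (brk P s t j) / aeval x Q := by
      intro j
      rw [hr]
      simp only [Pi.smul_apply, smul_eq_mul, map_mul]
      field_simp
    have c0 : E.ge ((q + 1) * o) (aeval x (r 0)) := by
      rw [hrj]
      simp only [brk, Matrix.cons_val_zero, map_mul, map_sub, map_ofNat]
      refine ge_div (ge_mul (ge_mul two hPg) (ge_sub (ge_mul a1 b2) (ge_mul a2 b1))) hQ ?_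
      rw [hQo]; exact le_of_eq (by ring)
    have c1 : E.ge (q * o) (aeval x (r 1)) := by
      rw [hrj]
      simp only [brk, Matrix.cons_val_one, Matrix.cons_val, map_mul, map_sub, map_neg]
      refine ge_div (n := 2 * q * o) (ge_neg (ge_sub (ge_mul' a0 b1 ?_) (ge_mul' a1 b0 ?_))) hQ ?_
      · exact le_of_eq (by ring)
      · exact le_of_eq (by ring)
      · rw [hQo]; exact le_of_eq (by ring)
    have c2 : E.ge (q * o) (aeval x (r 2)) := by
      rw [hrj]
      simp only [brk, Matrix.cons_val, map_mul, map_sub, map_neg]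
      refine ge_div (n := 2 * q * o) (ge_neg (ge_sub (ge_mul' a2 b0 ?_) (ge_mul' a0 b2 ?_))) hQ ?_
      · exact le_of_eq (by ring)
      · exact le_of_eq (by ring)
      · rw [hQo]; exact le_of_eq (by ring)
    have hcomb : ∀ u : Fin 3 → k[X], E.ge ((2 * q + 1) * o) (aeval x (dt u t r)) →
        E.ge ((2 * q + 1) * o) (aeval x (dt s u r)) → E.ge (2 * q * o) (aeval x (dt s t u)) →
        E.ge o (aeval x Q / val P x w s * val P x w u) := by
      intro u e1 e2 e3
      have hΔ' : algebraMap k L Δ ≠ 0 := by simpa using hΔ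
      have e : aeval x Q / val P x w s * val P x w u = (aeval x (dt u t r) +
          aeval x (dt s u r) * (val P x w t / val P x w s) +
          aeval x (dt s t u) * (val P x w r / val P x w s)) / (algebraMap k L Δ * aeval x Q ^ 2) := by
        have h := val_cramer (P := P) (x := x) (w := w) s t r u
        rw [hd] at h
        simp only [map_mul, map_pow, aeval_C] at h
        field_simp
        linear_combination h
      rw [e]
      refine ge_div (n := (2 * q + 1) * o) (ge_add (ge_add e1 (ge_mul' e2 hτ (by simp)))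
        (ge_mul' e3 hρ (le_of_eq (by ring)))) (mul_ne_zero hΔ' (pow_ne_zero _ hQ)) ?_
      rw [E.ord_mul hΔ' (pow_ne_zero _ hQ), E.ord_base _ hΔ, ord_pow E hQ, hQo]
      exact le_of_eq (by push_cast; ring)
    have hx2 : E.ge (2 * o) (x ^ 2) := ge_pow (ge_self x) 2
    have g0 : E.ge o (aeval x Q / val P x w s * x ^ 2) := by
      have h := hcomb ![X ^ 2, 0, 0] ?_ ?_ ?_
      · simpa [val] using h
      · simp only [dt, Matrix.cons_val_zero, Matrix.cons_val_one, Matrix.cons_val, map_add, map_mul,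
          map_sub, map_neg, map_pow, aeval_X, map_zero, zero_mul, sub_zero, zero_sub, zero_add]
        refine ge_add (ge_mul' (ge_neg (ge_mul hx2 b2)) c1 ?_) (ge_mul' (ge_mul hx2 b1) c2 ?_)
        · exact le_of_eq (by ring)
        · exact le_of_eq (by ring)
      · simp only [dt, Matrix.cons_val_zero, Matrix.cons_val_one, Matrix.cons_val, map_add, map_mul,
          map_sub, map_neg, map_pow, aeval_X, map_zero, mul_zero, sub_zero, zero_sub, zero_add, zero_mul]
        refine ge_add (ge_mul' (ge_mul a2 hx2) c1 ?_) (ge_mul' (ge_neg (ge_mul a1 hx2)) c2 ?_)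
        · exact le_of_eq (by ring)
        · exact le_of_eq (by ring)
      · simp only [dt, Matrix.cons_val_zero, Matrix.cons_val_one, Matrix.cons_val, map_add, map_mul,
          map_sub, map_neg, map_pow, aeval_X, map_zero, mul_zero, add_zero]
        exact ge_mul' (ge_sub (ge_mul a1 b2) (ge_mul a2 b1)) hx2 (le_of_eq (by ring))
    have g1 : E.ge o (aeval x Q / val P x w s * w) := by
      have h := hcomb ![0, 1, 0] ?_ ?_ ?_
      · simpa [val] using h
      · simp only [dt, Matrix.cons_val_zero, Matrix.cons_val_one, Matrix.cons_val, map_add, map_mul,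
          map_sub, map_neg, map_one, map_zero, zero_mul, one_mul, sub_zero, zero_sub, add_zero]
        refine ge_add (ge_mul' b2 c0 ?_) (ge_mul' (ge_neg b0) c2 ?_)
        · nlinarith
        · exact le_of_eq (by ring)
      · simp only [dt, Matrix.cons_val_zero, Matrix.cons_val_one, Matrix.cons_val, map_add, map_mul,
          map_sub, map_neg, map_one, map_zero, mul_zero, mul_one, sub_zero, zero_sub, zero_mul, add_zero]
        refine ge_add (ge_mul' (ge_neg a2) c0 ?_) (ge_mul' a0 c2 ?_)
        · nlinarith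
        · exact le_of_eq (by ring)
      · simp only [dt, Matrix.cons_val_zero, Matrix.cons_val_one, Matrix.cons_val, map_add, map_mul,
          map_sub, map_neg, map_one, map_zero, mul_zero, mul_one, add_zero, zero_add]
        exact ge_sub (ge_mul' a2 b0 (le_of_eq (by ring))) (ge_mul' a0 b2 (le_of_eq (by ring)))
    have g2 : E.ge o (aeval x Q / val P x w s * (aeval x P / w)) := by
      have h := hcomb ![0, 0, 1] ?_ ?_ ?_
      · simpa [val] using h
      · simp only [dt, Matrix.cons_val_zero, Matrix.cons_val_one, Matrix.cons_val, map_add, map_mul,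
          map_sub, map_neg, map_one, map_zero, zero_mul, one_mul, sub_zero, zero_sub, add_zero]
        refine ge_add (ge_mul' (ge_neg b1) c0 ?_) (ge_mul' b0 c1 ?_)
        · nlinarith
        · exact le_of_eq (by ring)
      · simp only [dt, Matrix.cons_val_zero, Matrix.cons_val_one, Matrix.cons_val, map_add, map_mul,
          map_sub, map_neg, map_one, map_zero, mul_zero, mul_one, sub_zero, zero_sub, zero_mul, add_zero]
        refine ge_add (ge_mul' a1 c0 ?_) (ge_mul' (ge_neg a0) c1 ?_)
        · nlinarith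
        · exact le_of_eq (by ring)
      · simp only [dt, Matrix.cons_val_zero, Matrix.cons_val_one, Matrix.cons_val, map_add, map_mul,
          map_sub, map_neg, map_one, map_zero, mul_zero, mul_one, add_zero, zero_add]
        exact ge_sub (ge_mul' a0 b1 (le_of_eq (by ring))) (ge_mul' a1 b0 (le_of_eq (by ring)))
    exact bound_neg hP M hδ hinj hv hx g0 g1 g2 i

end Pool.Agent.H48.SymDP
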