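import Pool.Agent.H48.SymDP.Irr.Field
import Pool.Agent.H88.SymDP.Sections
import Pool.Agent.H60.PlaceBound

/-!
# The second conic structure
-/

set_option linter.unusedSectionVars false
set_option linter.unusedSimpArgs false

open Polynomial

namespace Pool.Agent.H60.CN

open Pool.Agent.H48.SymDP Pool.Agent.H60.PB

section Algebra

variable {k L : Type} [Field k] [CharZero k] [Algebra ℚ k] [Field L] [Algebra k L]

/-- Evaluation of rational polynomials. -/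
noncomputable def ex (k : Type) [Field k] [Algebra ℚ k] {L : Type} [Field L] [Algebra k L]
    (x : L) (p : ℚ[X]) : L := aeval x (p.map (algebraMap ℚ k))

lemma aeval_rf0 (x : L) (θ : k) (s : Fin 3 → ℚ[X]) : aeval x (rf θ s 0) = ex k x (s 0) := by
  simp [rf, ex]

lemma aeval_rf1 (x : L) (θ : k) (s : Fin 3 → ℚ[X]) :
    aeval x (rf θ s 1) = ex k x (s 1) + algebraMap k L θ * ex k x (s 2) := by
  simp [rf, ex]

lemma aeval_rf2 (x : L) (θ : k) (s : Fin 3 → ℚ[X]) :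
    aeval x (rf θ s 2) = ex k x (s 1) - algebraMap k L θ * ex k x (s 2) := by
  simp [rf, ex]

lemma val_rf {P : k[X]} {x y z : L} {θ : k} (hθ : θ ^ 2 = -3)
    (hw : y + algebraMap k L θ * z ≠ 0)
    (hrel : (y + algebraMap k L θ * z) * (y - algebraMap k L θ * z) = aeval x P)
    (s : Fin 3 → ℚ[X]) : val P x (y + algebraMap k L θ * z) (rf θ s) =
      ex k x (s 0) + 2 * ex k x (s 1) * y - 6 * ex k x (s 2) * z := by
  have hθ' : algebraMap k L θ ^ 2 = -3 := by rw [← map_pow, hθ, map_neg, map_ofNat]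
  have h1 : aeval x P / (y + algebraMap k L θ * z) = y - algebraMap k L θ * z := by
    rw [← hrel]; field_simp
  simp only [val, aeval_rf0, aeval_rf1, aeval_rf2, h1]
  linear_combination 2 * ex k x (s 2) * z * hθ'

lemma val_brk_rf {P : k[X]} {x y z : L} {θ : k}
    (hw : y + algebraMap k L θ * z ≠ 0)
    (hrel : (y + algebraMap k L θ * z) * (y - algebraMap k L θ * z) = aeval x P)
    (s t : Fin 3 → ℚ[X]) :
    val P x (y + algebraMap k L θ * z) (brk P (rf θ s) (rf θ t)) =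
      algebraMap k L θ * (4 * aeval x P * (ex k x (s 2) * ex k x (t 1) - ex k x (s 1) * ex k x (t 2))
        - 2 * z * (ex k x (s 0) * ex k x (t 1) - ex k x (s 1) * ex k x (t 0))
        + 2 * y * (ex k x (s 2) * ex k x (t 0) - ex k x (s 0) * ex k x (t 2))) := by
  have h1 : aeval x P / (y + algebraMap k L θ * z) = y - algebraMap k L θ * z := by
    rw [← hrel]; field_simp
  simp only [val, brk, Matrix.cons_val_zero, Matrix.cons_val_one, Matrix.cons_val, map_mul,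
    map_sub, map_neg, map_ofNat, aeval_rf0, aeval_rf1, aeval_rf2, h1]
  ring

/-- The polynomial identity behind the second conic structure. -/
lemma key_poly {κ₁ : ℚ} {Q : ℚ[X]} (hQ : Q ≠ 0) {s t : Fin 3 → k[X]}
    {Δ l₀ l₁ μ₀ μ₁ c d : ℚ}
    (hdt : dt s t (brk (PK k κ₁) s t) =
        C (algebraMap ℚ _ Δ) * (Q.map (algebraMap ℚ _)) ^ 4)
    (h11 : dsc (PK k κ₁) s s = ((Q * (C l₁ * X + C l₀)) ^ 2).map (algebraMap ℚ _))
    (h12 : dsc (PK k κ₁) s t =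
        (Q ^ 2 * (C μ₁ * (C l₁ * X + C l₀) + C μ₀)).map (algebraMap ℚ _))
    (h22 : dsc (PK k κ₁) t t =
        (Q ^ 2 * (C c * (C l₁ * X + C l₀) + C d)).map (algebraMap ℚ _)) :
    ((C μ₁ * (C l₁ * X + C l₀) + C μ₀) ^ 2 - (C l₁ * X + C l₀) ^ 2 *
      (C c * (C l₁ * X + C l₀) + C d) : ℚ[X]).map (algebraMap ℚ k) =
      C (algebraMap ℚ k (2 * Δ)) * PK k κ₁ := by
  have h := dsc_sq_sub (PK k κ₁) s t
  rw [hdt, h11, h12, h22] at h
  have hQ' : (Q.map (algebraMap ℚ k)) ≠ 0 := by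
    rwa [Ne, Polynomial.map_eq_zero]
  refine mul_left_cancel₀ (pow_ne_zero 4 hQ') ?_
  simp only [Polynomial.map_mul, Polynomial.map_pow, Polynomial.map_add, Polynomial.map_sub,
    map_C, map_X, map_mul, map_ofNat] at h ⊢
  linear_combination h

lemma map_ex (φ : L →+* L) (x : L) (hx : φ x = x) (p : ℚ[X]) : φ (ex k x p) = ex k x p := by
  simp only [ex, aeval_def, eval₂_map]
  rw [hom_eval₂, hx]
  congr 1
  exact Subsingleton.elim _ _

/-- a point of `L` where a nonzero polynomial over the algebraically closed field `k` vanishes is in `k` -/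
lemma exists_const [IsAlgClosed k] {x : L} {p : k[X]} (hp : p ≠ 0) (hx : aeval x p = 0) :
    ∃ a : k, x = algebraMap k L a := by
  have halg : IsAlgebraic k x := ⟨p, hp, hx⟩
  have hint : IsIntegral k x := halg.isIntegral
  have hdeg : (minpoly k x).degree = 1 :=
    IsAlgClosed.degree_eq_one_of_irreducible k (minpoly.irreducible hint)
  obtain ⟨a, ha⟩ := minpoly.mem_range_of_degree_eq_one k x hdeg
  exact ⟨a, ha.symm⟩

lemma alg1 {θ τ η X' μ₀ μ₁ c d D P' : L} (hθ : θ ^ 2 = -3)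
    (hη : η ^ 2 = X' ^ 2 * τ ^ 2 - 2 * (μ₁ * X' + μ₀) * τ + (c * X' + d)) (hc : c = -2 * μ₀)
    (hp : (μ₁ * τ + μ₀) ^ 2 - τ ^ 2 * (c * τ + d) = 2 * D * P') :
    (θ * (τ * η)) ^ 2 + 3 * (τ ^ 2 * X' - μ₁ * τ - μ₀) ^ 2 = 6 * D * P' := by
  linear_combination τ ^ 2 * η ^ 2 * hθ - 3 * τ ^ 2 * hη + 3 * hp + (3 * τ ^ 3 - 3 * τ ^ 2 * X') * hc

lemma alg2 {θ τ η X' μ₀ μ₁ c d : L}
    (hη : η ^ 2 = X' ^ 2 * τ ^ 2 - 2 * (μ₁ * X' + μ₀) * τ + (c * X' + d)) (hc : c = -2 * μ₀) :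
    2 * X' * (θ * (τ * η) + θ * (τ ^ 2 * X' - μ₁ * τ - μ₀)) =
      θ * ((η + X' * τ) ^ 2 - c * τ - d) := by
  linear_combination (-θ) * hη + (θ * τ - θ * X') * hc

lemma alg3 {θ τ X' μ₀ μ₁ c d D P' w' om : L} (h3 : (3 : L) ≠ 0) (hθ : θ ^ 2 = -3)
    (h2 : 2 * X' * w' = θ * (om ^ 2 - c * τ - d))
    (hom : θ * (τ * om - μ₁ * τ - μ₀) = w')
    (hp : (μ₁ * τ + μ₀) ^ 2 - τ ^ 2 * (c * τ + d) = 2 * D * P') :
    2 * τ ^ 2 * (X' * w') = 2 * θ * D * P' + 2 * (μ₁ * τ + μ₀) * w' - θ / 3 * w' ^ 2 := by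
  have h4 : τ * om = μ₁ * τ + μ₀ - θ * w' / 3 := by
    field_simp
    linear_combination (-θ) * hom + (τ * om - μ₁ * τ - μ₀) * hθ
  have h5 : 2 * τ ^ 2 * (X' * w') = θ * ((τ * om) ^ 2 - τ ^ 2 * (c * τ + d)) := by
    linear_combination τ ^ 2 * h2
  rw [h5, h4]
  field_simp
  linear_combination 9 * θ * hp + (θ * w' ^ 2 - 6 * w' * (μ₁ * τ + μ₀)) * hθ

lemma aeval_mem (E : IntermediateField k L) {x : L} (hx : x ∈ E) (p : k[X]) : aeval x p ∈ E := by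
  rw [aeval_eq_sum_range]
  refine sum_mem fun i _ => ?_
  rw [Algebra.smul_def]
  exact mul_mem (E.algebraMap_mem _) (pow_mem hx _)

theorem core [IsAlgClosed k] {θ : k} (hθ : θ ^ 2 = -3) {κ₁ : ℚ} (hκ : κ₁ ≠ 0) {x y z : L}
    (hrel : y ^ 2 + 3 * z ^ 2 = algebraMap k L (algebraMap ℚ k κ₁) * (x ^ 3 + 2))
    (hgen : IntermediateField.adjoin k {x, y + algebraMap k L θ * z} = ⊤)
    (hinj : Function.Injective (ev x (y + algebraMap k L θ * z) : k[X][X] →+* L))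
    (Q : ℚ[X]) (hQ : Q ≠ 0) (s t : Fin 3 → ℚ[X]) (Δ l₀ l₁ μ₀ μ₁ c d : ℚ) (hΔ : Δ ≠ 0)
    (hl : l₁ ≠ 0) (hcμ : c = -2 * μ₀)
    (hdt : dt (rf θ s) (rf θ t) (brk (PK k κ₁) (rf θ s) (rf θ t)) =
        C (algebraMap ℚ _ Δ) * (Q.map (algebraMap ℚ _)) ^ 4)
    (h11 : dsc (PK k κ₁) (rf θ s) (rf θ s) =
        ((Q * (C l₁ * X + C l₀)) ^ 2).map (algebraMap ℚ _))
    (h12 : dsc (PK k κ₁) (rf θ s) (rf θ t) =
        (Q ^ 2 * (C μ₁ * (C l₁ * X + C l₀) + C μ₀)).map (algebraMap ℚ _))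
    (h22 : dsc (PK k κ₁) (rf θ t) (rf θ t) =
        (Q ^ 2 * (C c * (C l₁ * X + C l₀) + C d)).map (algebraMap ℚ _)) :
    ∃ x' y' z' : L, (∀ φ : L →+* L, φ x = x → φ y = y → φ z = z →
        φ x' = x' ∧ φ y' = y' ∧ φ z' = z') ∧
      y' ^ 2 + 3 * z' ^ 2 = algebraMap k L (algebraMap ℚ k (6 * Δ * κ₁)) * (x' ^ 3 + 2) ∧
      IntermediateField.adjoin k {x', y' + algebraMap k L θ * z'} = ⊤ ∧
      val (PK k κ₁) x (y + algebraMap k L θ * z) (rf θ t) =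
        val (PK k κ₁) x (y + algebraMap k L θ * z) (rf θ s) *
        aeval x' ((C l₁ * X + C l₀ : ℚ[X]).map (algebraMap ℚ k)) ∧
      ∃ a₀ a₁ a₂ a₃ : k[X], aeval x' a₃ ≠ 0 ∧
        aeval x' a₃ * x * (y' + algebraMap k L θ * z') =
          aeval x' a₀ + aeval x' a₁ * (y' + algebraMap k L θ * z') +
          aeval x' a₂ * (y' + algebraMap k L θ * z') ^ 2 := by
  have hCZ : CharZero L := charZero_of_injective_algebraMap (algebraMap k L).injective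
  obtain ⟨ι, hι⟩ : ∃ ι : ℚ →+* L, ∀ r, algebraMap k L (algebraMap ℚ k r) = ι r :=
    ⟨(algebraMap k L).comp (algebraMap ℚ k), fun r => rfl⟩
  obtain ⟨θL, hθL⟩ : ∃ θL : L, θL = algebraMap k L θ := ⟨_, rfl⟩
  have hθ2 : θL ^ 2 = -3 := by rw [hθL, ← map_pow, hθ, map_neg, map_ofNat]
  have hθ0 : θL ≠ 0 := by
    intro h0
    rw [h0] at hθ2
    norm_num at hθ2
  obtain ⟨w, hw⟩ : ∃ w : L, w = y + algebraMap k L θ * z := ⟨_, rfl⟩
  have hw0 : w ≠ 0 := by rw [hw]; exact w_ne hinj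
  have hx3 : aeval x (PK k κ₁) = ι κ₁ * (x ^ 3 + 2) := by
    rw [PK_eq]; simp [hι, map_ofNat]
  have hPx : (y + algebraMap k L θ * z) * (y - algebraMap k L θ * z) = aeval x (PK k κ₁) := by
    rw [hx3, ← hι, ← hrel, ← hθL]
    linear_combination (-z ^ 2) * hθ2
  have hP0 : PK k κ₁ ≠ 0 := PK_ne hκ
  have hQ' : (Q.map (algebraMap ℚ k)) ≠ 0 := by rwa [Ne, Polynomial.map_eq_zero]
  obtain ⟨q, hq⟩ : ∃ q : L, q = aeval x (Q.map (algebraMap ℚ k)) := ⟨_, rfl⟩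
  have hq0 : q ≠ 0 := by rw [hq]; exact aeval_ne hinj hQ'
  have hΔk : algebraMap ℚ k Δ ≠ 0 := by simpa using hΔ
  have hdt0 : dt (rf θ s) (rf θ t) (brk (PK k κ₁) (rf θ s) (rf θ t)) ≠ 0 := by
    rw [hdt]; exact mul_ne_zero (C_ne_zero.2 hΔk) (pow_ne_zero _ hQ')
  have hs0 : rf θ s ≠ 0 := by
    intro h0
    rw [h0] at hdt0
    exact hdt0 (by simp [dt])
  have ht0 : rf θ t ≠ 0 := by
    intro h0
    rw [h0] at hdt0
    exact hdt0 (by simp [dt])
  obtain ⟨v1, hv1⟩ : ∃ v1 : L, v1 = val (PK k κ₁) x w (rf θ s) := ⟨_, rfl⟩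
  obtain ⟨v2, hv2⟩ : ∃ v2 : L, v2 = val (PK k κ₁) x w (rf θ t) := ⟨_, rfl⟩
  obtain ⟨v3, hv3⟩ : ∃ v3 : L, v3 = val (PK k κ₁) x w (brk (PK k κ₁) (rf θ s) (rf θ t)) :=
    ⟨_, rfl⟩
  have hv10 : v1 ≠ 0 := by rw [hv1, hw]; exact val_ne hinj hP0 hs0
  have hv20 : v2 ≠ 0 := by rw [hv2, hw]; exact val_ne hinj hP0 ht0
  obtain ⟨X', hX'⟩ : ∃ X' : L, X' = ι l₁ * x + ι l₀ := ⟨_, rfl⟩
  have hl' : ι l₁ ≠ 0 := by simpa using hl
  have e11 : aeval x (dsc (PK k κ₁) (rf θ s) (rf θ s)) = q ^ 2 * X' ^ 2 := by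
    rw [h11, hX', hq]; simp [hι]; ring
  have e12 : aeval x (dsc (PK k κ₁) (rf θ s) (rf θ t)) = q ^ 2 * (ι μ₁ * X' + ι μ₀) := by
    rw [h12, hX', hq]; simp [hι]
  have e22 : aeval x (dsc (PK k κ₁) (rf θ t) (rf θ t)) = q ^ 2 * (ι c * X' + ι d) := by
    rw [h22, hX', hq]; simp [hι]
  obtain ⟨τ, hτ⟩ : ∃ τ : L, τ = v2 / v1 := ⟨_, rfl⟩
  obtain ⟨η, hη'⟩ : ∃ η : L, η = v3 / (q * v1) := ⟨_, rfl⟩
  have hτ0 : τ ≠ 0 := by rw [hτ]; exact div_ne_zero hv20 hv10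
  have hη : η ^ 2 = X' ^ 2 * τ ^ 2 - 2 * (ι μ₁ * X' + ι μ₀) * τ + (ι c * X' + ι d) := by
    have h := val_brk (P := PK k κ₁) (x := x) hw0 (rf θ s) (rf θ t)
    rw [← hv1, ← hv2, ← hv3, e11, e12, e22] at h
    rw [hη', hτ]
    field_simp
    linear_combination h
  obtain ⟨x', hx'⟩ : ∃ x' : L, x' = (τ - ι l₀) / ι l₁ := ⟨_, rfl⟩
  have hτx : τ = ι l₁ * x' + ι l₀ := by rw [hx']; field_simp; ring
  have hT : aeval x' ((C l₁ * X + C l₀ : ℚ[X]).map (algebraMap ℚ k)) = τ := by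
    rw [hτx]; simp [hι]
  have hx'3 : aeval x' (PK k κ₁) = ι κ₁ * (x' ^ 3 + 2) := by
    rw [PK_eq]; simp [hι, map_ofNat]
  have hp : (ι μ₁ * τ + ι μ₀) ^ 2 - τ ^ 2 * (ι c * τ + ι d) =
      2 * ι Δ * (aeval x' (PK k κ₁)) := by
    have h := congrArg (aeval x' : k[X] → L) (key_poly hQ hdt h11 h12 h22)
    simp only [Polynomial.map_sub, Polynomial.map_pow, Polynomial.map_mul, Polynomial.map_add,
      map_C, map_X, map_sub, map_pow, map_mul, map_add, aeval_C, aeval_X, hι, map_ofNat,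
      ← hτx] at h
    exact h
  obtain ⟨z', hz'⟩ : ∃ z' : L, z' = τ ^ 2 * X' - ι μ₁ * τ - ι μ₀ := ⟨_, rfl⟩
  obtain ⟨y', hy'⟩ : ∃ y' : L, y' = θL * (τ * η) := ⟨_, rfl⟩
  have hc' : ι c = -2 * ι μ₀ := by rw [hcμ]; simp
  have hrel' : y' ^ 2 + 3 * z' ^ 2 = 6 * ι Δ * aeval x' (PK k κ₁) := by
    rw [hy', hz']; exact alg1 hθ2 hη hc' hp
  obtain ⟨w', hw'⟩ : ∃ w' : L, w' = y' + algebraMap k L θ * z' := ⟨_, rfl⟩
  have hw'2 : w' = θL * (τ * η) + θL * (τ ^ 2 * X' - ι μ₁ * τ - ι μ₀) := by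
    rw [hw', hy', hz', hθL]
  have hA2 : 2 * X' * w' = θL * ((η + X' * τ) ^ 2 - ι c * τ - ι d) := by
    rw [hw'2]; exact alg2 hη hc'
  have hom : θL * (τ * (η + X' * τ) - ι μ₁ * τ - ι μ₀) = w' := by rw [hw'2]; ring
  have hA3 := alg3 (three_ne_zero) hθ2 hA2 hom hp
  have hP'0 : aeval x' (PK k κ₁) ≠ 0 := by
    intro h0
    obtain ⟨a, ha⟩ := exists_const hP0 h0
    have hb : τ = algebraMap k L (algebraMap ℚ k l₁ * a + algebraMap ℚ k l₀) := by
      rw [hτx, ha]; simp [hι]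
    obtain ⟨b, hb'⟩ : ∃ b : k, b = algebraMap ℚ k l₁ * a + algebraMap ℚ k l₀ := ⟨_, rfl⟩
    rw [← hb'] at hb
    have h1 : rf θ t - C b • rf θ s = 0 := by
      by_contra h2
      refine val_ne hinj hP0 h2 ?_
      have h3 : val (PK k κ₁) x (y + algebraMap k L θ * z) (rf θ t - C b • rf θ s) =
          v2 - algebraMap k L b * v1 := by
        rw [hv1, hv2, hw]; simp [val]; ring
      rw [h3, ← hb, hτ]; field_simp; ring
    have h2 : rf θ t = C b • rf θ s := sub_eq_zero.1 h1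
    apply hdt0
    rw [h2]; simp [dt]; ring
  have hw'0 : w' ≠ 0 := by
    intro h0
    have h1 : w' * (y' - θL * z') = 6 * ι Δ * aeval x' (PK k κ₁) := by
      rw [← hrel', hw', ← hθL]
      linear_combination (-z' ^ 2) * hθ2
    rw [h0, zero_mul] at h1
    have hΔL : ι Δ ≠ 0 := by simpa using hΔ
    exact mul_ne_zero (mul_ne_zero (by norm_num) hΔL) hP'0 h1.symm
  refine ⟨x', y', z', ?_, ?_, ?_, ?_, ?_⟩
  · intro φ hφx hφy hφz
    have hφι : ∀ r, φ (ι r) = ι r := by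
      intro r
      exact RingHom.congr_fun (Subsingleton.elim (φ.comp ι) ι) r
    have f1 : φ v1 = v1 := by
      rw [hv1, hw, val_rf hθ (by rw [← hw]; exact hw0) hPx]
      simp only [map_add, map_sub, map_mul, map_ofNat, map_ex φ x hφx, hφy, hφz]
    have f2 : φ v2 = v2 := by
      rw [hv2, hw, val_rf hθ (by rw [← hw]; exact hw0) hPx]
      simp only [map_add, map_sub, map_mul, map_ofNat, map_ex φ x hφx, hφy, hφz]
    have fq : φ q = q := by rw [hq]; exact map_ex φ x hφx Q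
    have fP : φ (aeval x (PK k κ₁)) = aeval x (PK k κ₁) := map_ex φ x hφx (PP κ₁)
    obtain ⟨R, hR⟩ : ∃ R : L, R = (4 * aeval x (PK k κ₁) * (ex k x (s 2) * ex k x (t 1) -
        ex k x (s 1) * ex k x (t 2))
        - 2 * z * (ex k x (s 0) * ex k x (t 1) - ex k x (s 1) * ex k x (t 0))
        + 2 * y * (ex k x (s 2) * ex k x (t 0) - ex k x (s 0) * ex k x (t 2))) := ⟨_, rfl⟩
    have fR : φ R = R := by
      rw [hR]
      simp only [map_add, map_sub, map_mul, map_ofNat, map_ex φ x hφx, hφy, hφz, fP]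
    have hv3R : v3 = θL * R := by
      rw [hv3, hw, val_brk_rf (by rw [← hw]; exact hw0) hPx, hθL, hR]
    have hyR : y' = -3 * (τ * R / (q * v1)) := by
      rw [hy', hη', hv3R]
      field_simp
      linear_combination R * hθ2
    have fτ : φ τ = τ := by rw [hτ, map_div₀, f1, f2]
    have fX : φ X' = X' := by rw [hX', map_add, map_mul, hφι, hφι, hφx]
    refine ⟨?_, ?_, ?_⟩
    · rw [hx', map_div₀, map_sub, hφι, hφι, fτ]
    · rw [hyR]
      simp only [map_mul, map_neg, map_div₀, map_ofNat, fτ, fR, fq, f1]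
    · rw [hz']
      simp only [map_sub, map_mul, map_pow, hφι, fτ, fX]
  · rw [hrel', hx'3, hι]; simp only [map_mul, map_ofNat]; ring
  · rw [← hw']
    set E := IntermediateField.adjoin k {x', w'} with hE
    have mx : x' ∈ E := IntermediateField.subset_adjoin _ _ (by simp)
    have mw : w' ∈ E := IntermediateField.subset_adjoin _ _ (by simp)
    have mι : ∀ r, ι r ∈ E := fun r => by rw [← hι]; exact E.algebraMap_mem _
    have mθ : θL ∈ E := by rw [hθL]; exact E.algebraMap_mem _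
    have mτ : τ ∈ E := by rw [hτx]; exact add_mem (mul_mem (mι _) mx) (mι _)
    have mom : η + X' * τ ∈ E := by
      have h1 : η + X' * τ = (w' / θL + ι μ₁ * τ + ι μ₀) / τ := by
        rw [← hom]; field_simp; ring
      rw [h1]
      exact div_mem (add_mem (add_mem (div_mem mw mθ) (mul_mem (mι _) mτ)) (mι _)) mτ
    have mX : X' ∈ E := by
      have h1 : X' = θL * ((η + X' * τ) ^ 2 - ι c * τ - ι d) / (2 * w') := by
        rw [← hA2]; field_simp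
      rw [h1]
      refine div_mem (mul_mem mθ (sub_mem (sub_mem (pow_mem mom 2) (mul_mem (mι _) mτ)) (mι _)))
        (mul_mem ?_ mw)
      have := mι 2
      rwa [map_ofNat] at this
    have mxx : x ∈ E := by
      have h1 : x = (X' - ι l₀) / ι l₁ := by rw [hX']; field_simp; ring
      rw [h1]; exact div_mem (sub_mem mX (mι _)) (mι _)
    have mη : η ∈ E := by
      have h1 : η = (η + X' * τ) - X' * τ := by ring
      rw [h1]; exact sub_mem mom (mul_mem mX mτ)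
    have mq : q ∈ E := by rw [hq]; exact aeval_mem E mxx _
    have mcr : ∀ u : Fin 3 → k[X],
        aeval x (dt (rf θ s) (rf θ t) (brk (PK k κ₁) (rf θ s) (rf θ t))) *
          val (PK k κ₁) x w u / v1 ∈ E := by
      intro u
      have h1 := val_cramer (P := PK k κ₁) (x := x) (w := w) (rf θ s) (rf θ t)
        (brk (PK k κ₁) (rf θ s) (rf θ t)) u
      rw [← hv1, ← hv2, ← hv3] at h1
      have h2 : aeval x (dt (rf θ s) (rf θ t) (brk (PK k κ₁) (rf θ s) (rf θ t))) *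
          val (PK k κ₁) x w u / v1 =
          aeval x (dt u (rf θ t) (brk (PK k κ₁) (rf θ s) (rf θ t))) +
          aeval x (dt (rf θ s) u (brk (PK k κ₁) (rf θ s) (rf θ t))) * τ +
          aeval x (dt (rf θ s) (rf θ t) u) * (q * η) := by
        rw [h1, hτ, hη']; field_simp
      rw [h2]
      exact add_mem (add_mem (aeval_mem E mxx _) (mul_mem (aeval_mem E mxx _) mτ))
        (mul_mem (aeval_mem E mxx _) (mul_mem mq mη))
    have hD0 : aeval x (dt (rf θ s) (rf θ t) (brk (PK k κ₁) (rf θ s) (rf θ t))) ≠ 0 :=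
      aeval_ne hinj hdt0
    have mww : w ∈ E := by
      have h1 := mcr ![0, 1, 0]
      have h2 := mcr ![1, 0, 0]
      have e1 : val (PK k κ₁) x w ![0, 1, 0] = w := by simp [val]
      have e2 : val (PK k κ₁) x w ![1, 0, 0] = 1 := by simp [val]
      rw [e1] at h1
      rw [e2] at h2
      have h3 := div_mem h1 h2
      have h4 : aeval x (dt (rf θ s) (rf θ t) (brk (PK k κ₁) (rf θ s) (rf θ t))) * w / v1 /
          (aeval x (dt (rf θ s) (rf θ t) (brk (PK k κ₁) (rf θ s) (rf θ t))) * 1 / v1) = w := by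
        field_simp
      rwa [h4] at h3
    rw [eq_top_iff, ← hgen, IntermediateField.adjoin_le_iff]
    intro a ha
    rw [← hw] at ha
    rcases ha with rfl | ha
    · exact mxx
    · rw [Set.mem_singleton_iff] at ha
      rw [ha]; exact mww
  · rw [hT, ← hw, ← hv1, ← hv2, hτ]; field_simp
  · obtain ⟨T, hTdef⟩ : ∃ T : k[X], T = (C l₁ * X + C l₀ : ℚ[X]).map (algebraMap ℚ k) := ⟨_, rfl⟩
    rw [← hTdef] at hT
    refine ⟨C (2 * θ * algebraMap ℚ k Δ) * PK k κ₁,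
      2 * (C (algebraMap ℚ k μ₁) * T + C (algebraMap ℚ k μ₀)) -
        2 * C (algebraMap ℚ k l₀) * T ^ 2, - C (θ / 3), 2 * C (algebraMap ℚ k l₁) * T ^ 2, ?_, ?_⟩
    · simp only [map_mul, map_pow, map_ofNat, aeval_C, hT, hι]
      exact mul_ne_zero (mul_ne_zero two_ne_zero hl') (pow_ne_zero _ hτ0)
    · rw [← hw']
      simp only [map_mul, map_pow, map_ofNat, aeval_C, hT, hι, map_add, map_sub, map_neg,
        map_div₀, ← hθL]
      rw [hX'] at hA3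
      linear_combination hA3

end Algebra

end Pool.Agent.H60.CN

namespace Pool.Agent.H48.SymDP

open Pool.Agent.H60.CN

/-- The second conic structure, given the injectivity of the evaluation. -/
theorem Conic.next_of_inj {θ : AlgebraicClosure ℚ} {κ₁ : ℚ}
    {x y z : RatFunc (RatFunc (AlgebraicClosure ℚ))} (h : Conic θ κ₁ x y z)
    (hinj : Function.Injective (ev x (y + algebraMap (AlgebraicClosure ℚ) _ θ * z) :
      (AlgebraicClosure ℚ)[X][X] →+* RatFunc (RatFunc (AlgebraicClosure ℚ))))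
    (Q : ℚ[X]) (hQ : Q ≠ 0) (s t : Fin 3 → ℚ[X]) (Δ l₀ l₁ μ₀ μ₁ c d : ℚ) (hΔ : Δ ≠ 0)
    (hl : l₁ ≠ 0) (hcμ : c = -2 * μ₀)
    (hdt : dt (rf θ s) (rf θ t) (brk (PK (AlgebraicClosure ℚ) κ₁) (rf θ s) (rf θ t)) =
        C (algebraMap ℚ _ Δ) * (Q.map (algebraMap ℚ _)) ^ 4)
    (h11 : dsc (PK (AlgebraicClosure ℚ) κ₁) (rf θ s) (rf θ s) =
        ((Q * (C l₁ * X + C l₀)) ^ 2).map (algebraMap ℚ _))
    (h12 : dsc (PK (AlgebraicClosure ℚ) κ₁) (rf θ s) (rf θ t) =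
        (Q ^ 2 * (C μ₁ * (C l₁ * X + C l₀) + C μ₀)).map (algebraMap ℚ _))
    (h22 : dsc (PK (AlgebraicClosure ℚ) κ₁) (rf θ t) (rf θ t) =
        (Q ^ 2 * (C c * (C l₁ * X + C l₀) + C d)).map (algebraMap ℚ _)) :
    ∃ (κ₂ : ℚ) (x' y' z' : RatFunc (RatFunc (AlgebraicClosure ℚ))), Conic θ κ₂ x' y' z' ∧
      val (PK (AlgebraicClosure ℚ) κ₁) x (y + algebraMap (AlgebraicClosure ℚ) _ θ * z) (rf θ t) =
        val (PK (AlgebraicClosure ℚ) κ₁) x (y + algebraMap (AlgebraicClosure ℚ) _ θ * z) (rf θ s) *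
        aeval x' ((C l₁ * X + C l₀ : ℚ[X]).map (algebraMap ℚ (AlgebraicClosure ℚ))) ∧
      ∃ a₀ a₁ a₂ a₃ : (AlgebraicClosure ℚ)[X], aeval x' a₃ ≠ 0 ∧
        aeval x' a₃ * x * (y' + algebraMap (AlgebraicClosure ℚ) _ θ * z') =
          aeval x' a₀ + aeval x' a₁ * (y' + algebraMap (AlgebraicClosure ℚ) _ θ * z') +
          aeval x' a₂ * (y' + algebraMap (AlgebraicClosure ℚ) _ θ * z') ^ 2 := by
  obtain ⟨x', y', z', hfix, hrel, hgen, hval, hex⟩ := core h.theta h.kappa h.rel h.gen hinj Q hQ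
    s t Δ l₀ l₁ μ₀ μ₁ c d hΔ hl hcμ hdt h11 h12 h22
  have hf := fun g => hfix (gL g) (h.x_fix g) (h.y_fix g) (h.z_fix g)
  exact ⟨6 * Δ * κ₁, x', y', z', ⟨h.theta, mul_ne_zero (mul_ne_zero (by norm_num) hΔ) h.kappa,
    fun g => (hf g).1, fun g => (hf g).2.1, fun g => (hf g).2.2, hrel, hgen⟩, hval, hex⟩

end Pool.Agent.H48.SymDP
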