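import Pool.Agent.H60.ConicNext
import Pool.Agent.H54.F12

/-!
# The second conic structure, final form
-/

open Polynomial

namespace Pool.Agent.H48.SymDP

/-- JOB N1b (the second conic structure). -/
theorem Conic.next {θ : AlgebraicClosure ℚ} {κ₁ : ℚ}
    {x y z : RatFunc (RatFunc (AlgebraicClosure ℚ))} (h : Conic θ κ₁ x y z)
    (Q : ℚ[X]) (hQ : Q ≠ 0) (s t : Fin 3 → ℚ[X]) (Δ l₀ l₁ μ₀ μ₁ c d : ℚ) (hΔ : Δ ≠ 0)
    (hl : l₁ ≠ 0) (_hc : c ≠ 0) (hcμ : c = -2 * μ₀)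
    (hdt : dt (rf θ s) (rf θ t) (brk (PK (AlgebraicClosure ℚ) κ₁) (rf θ s) (rf θ t)) =
        C (algebraMap ℚ _ Δ) * (Q.map (algebraMap ℚ _)) ^ 4)
    (h11 : dsc (PK (AlgebraicClosure ℚ) κ₁) (rf θ s) (rf θ s) =
        ((Q * (C l₁ * X + C l₀)) ^ 2).map (algebraMap ℚ _))
    (h12 : dsc (PK (AlgebraicClosure ℚ) κ₁) (rf θ s) (rf θ t) =
        (Q ^ 2 * (C μ₁ * (C l₁ * X + C l₀) + C μ₀)).map (algebraMap ℚ _))
    (h22 : dsc (PK (AlgebraicClosure ℚ) κ₁) (rf θ t) (rf θ t) =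
        (Q ^ 2 * (C c * (C l₁ * X + C l₀) + C d)).map (algebraMap ℚ _)) :
    ∃ (κ₂ : ℚ) (x' y' z' : RatFunc (RatFunc (AlgebraicClosure ℚ))), Conic θ κ₂ x' y' z' ∧
      val (PK (AlgebraicClosure ℚ) κ₁) x (y + algebraMap (AlgebraicClosure ℚ) _ θ * z) (rf θ t) =
        val (PK (AlgebraicClosure ℚ) κ₁) x (y + algebraMap (AlgebraicClosure ℚ) _ θ * z) (rf θ s) *
        aeval x' ((C l₁ * X + C l₀ : ℚ[X]).map (algebraMap ℚ (AlgebraicClosure ℚ))) ∧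
      ∃ a₀ a₁ a₂ a₃ : (AlgebraicClosure ℚ)[X], aeval x' a₃ ≠ 0 ∧
        aeval x' a₃ * x * (y' + algebraMap (AlgebraicClosure ℚ) _ θ * z') =
          aeval x' a₀ + aeval x' a₁ * (y' + algebraMap (AlgebraicClosure ℚ) _ θ * z') +
          aeval x' a₂ * (y' + algebraMap (AlgebraicClosure ℚ) _ θ * z') ^ 2 :=
  Conic.next_of_inj h (ev_injective _ _ h.gen) Q hQ s t Δ l₀ l₁ μ₀ μ₁ c d hΔ hl hcμ hdt h11 h12 h22

end Pool.Agent.H48.SymDP
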