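import Mathlib

set_option autoImplicit false

/-!
A concrete computable model of the field with `64` elements: elements are the numbers `0,…,63`,
read as polynomials over `ZMod 2` modulo `X ^ 6 + X + 1`; addition is bitwise exclusive or,
multiplication uses a table of discrete logarithms to the base `2` (the class of `X`).
-/

namespace Pool.Agent.H60

/-- Table of powers of the generator (six bits each, exponents `0,…,125`). -/
def exT : ℕ := 0x871e7dffe7ee5ea56bd1a367c99b77e9dbf66ec58b912265cf870e1e2469d7bf1e3e64e850a163c183060e0408102061c79f7ff9fb97a95af468d9f266ddfa76fd9bb162e4489973e1c387891a75efc78f993a142858f060c183810204081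

/-- Table of discrete logarithms (eight bits each; the entry of `0` is `128`). -/
def lgT : ℕ := 0x3a393b14152a3c1d2b2716321e2e3d0a28372c253335170f2f111f220b193e053813291c26312d093624340e10211804121b3008230d20031a070c0206010080

/-- Table of inverses. -/
def ivT : ℕ := 0x803437ebb224f1174a4a612aa4c787170bcd4f227855b0bf1add4b8943d760e8da9f3dbd656a2e734979b1faf1fa1040

def exN (k : ℕ) : ℕ := (exT >>> (6 * k)) % 64
def lgN (a : ℕ) : ℕ := (lgT >>> (8 * a)) % 256
def ivN (a : ℕ) : ℕ := (ivT >>> (6 * a)) % 64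
def mulN (a b : ℕ) : ℕ := exN (lgN a + lgN b)

theorem exN_lt (k : ℕ) : exN k < 64 := Nat.mod_lt _ (by norm_num)
theorem ivN_lt (k : ℕ) : ivN k < 64 := Nat.mod_lt _ (by norm_num)
theorem mulN_lt (a b : ℕ) : mulN a b < 64 := exN_lt _

theorem mulN_comm' (a b : ℕ) : mulN a b = mulN b a := by
  unfold mulN; rw [Nat.add_comm]

theorem lgN_lt' : ∀ a < 64, a ≠ 0 → lgN a < 63 := by decide +kernel
theorem lgN_zero' : lgN 0 = 128 := by decide +kernel
theorem exN_lgN' : ∀ a < 64, a ≠ 0 → exN (lgN a) = a := by decide +kernel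
theorem lgN_exN' : ∀ k < 126, lgN (exN k) = k % 63 := by decide +kernel
theorem exN_mod' : ∀ k < 126, exN k = exN (k % 63) := by decide +kernel
theorem exN_ne_zero' : ∀ k < 126, exN k ≠ 0 := by decide +kernel
theorem mulN_zero' : ∀ a < 64, mulN a 0 = 0 := by decide +kernel

theorem mulN_assoc' (a : ℕ) (ha : a < 64) (b : ℕ) (hb : b < 64) (c : ℕ) (hc : c < 64) :
    mulN (mulN a b) c = mulN a (mulN b c) := by
  by_cases ha0 : a = 0
  · subst ha0
    rw [mulN_comm' 0 b, mulN_zero' b hb, mulN_comm' 0 c, mulN_zero' c hc, mulN_comm' 0,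
      mulN_zero' _ (mulN_lt _ _)]
  by_cases hb0 : b = 0
  · subst hb0
    rw [mulN_zero' a ha, mulN_comm' 0 c, mulN_zero' c hc, mulN_zero' a ha]
  by_cases hc0 : c = 0
  · subst hc0
    rw [mulN_zero' b hb, mulN_zero' a ha, mulN_zero' _ (mulN_lt _ _)]
  have la := lgN_lt' a ha ha0
  have lb := lgN_lt' b hb hb0
  have lc := lgN_lt' c hc hc0
  have h1 : mulN (mulN a b) c = exN ((lgN a + lgN b) % 63 + lgN c) := by
    unfold mulN; rw [lgN_exN' _ (by omega)]
  have h2 : mulN a (mulN b c) = exN (lgN a + (lgN b + lgN c) % 63) := by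
    unfold mulN; rw [lgN_exN' _ (by omega)]
  rw [h1, h2, exN_mod' _ (by omega), exN_mod' (lgN a + (lgN b + lgN c) % 63) (by omega)]
  congr 1
  omega

theorem mulN_two_xor' : ∀ b < 64, ∀ c < 64, mulN 2 (b ^^^ c) = mulN 2 b ^^^ mulN 2 c := by
  decide +kernel

theorem exN_succ' : ∀ k < 62, exN (k + 1) = mulN 2 (exN k) := by decide +kernel
theorem mulN_exN_zero' : ∀ a < 64, mulN (exN 0) a = a := by decide +kernel

theorem mulN_xor_aux (k : ℕ) (hk : k < 63) (b : ℕ) (hb : b < 64) (c : ℕ) (hc : c < 64) :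
    mulN (exN k) (b ^^^ c) = mulN (exN k) b ^^^ mulN (exN k) c := by
  induction k with
  | zero =>
    rw [mulN_exN_zero' _ (Nat.xor_lt_two_pow (n := 6) hb hc), mulN_exN_zero' _ hb,
      mulN_exN_zero' _ hc]
  | succ k ih =>
    rw [exN_succ' k (by omega), mulN_assoc' 2 (by norm_num) _ (exN_lt _) _
      (Nat.xor_lt_two_pow (n := 6) hb hc), ih (by omega),
      mulN_two_xor' _ (mulN_lt _ _) _ (mulN_lt _ _),
      mulN_assoc' 2 (by norm_num) _ (exN_lt _) _ hb, mulN_assoc' 2 (by norm_num) _ (exN_lt _) _ hc]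

theorem mulN_xor' (a : ℕ) (ha : a < 64) (b : ℕ) (hb : b < 64) (c : ℕ) (hc : c < 64) :
    mulN a (b ^^^ c) = mulN a b ^^^ mulN a c := by
  by_cases ha0 : a = 0
  · subst ha0
    rw [mulN_comm' 0, mulN_comm' 0 b, mulN_comm' 0 c, mulN_zero' _ (Nat.xor_lt_two_pow (n := 6) hb hc),
      mulN_zero' _ hb, mulN_zero' _ hc, Nat.xor_self]
  · have h := mulN_xor_aux (lgN a) (lgN_lt' a ha ha0) b hb c hc
    rwa [exN_lgN' a ha ha0] at h

theorem mulN_one' : ∀ a < 64, mulN a 1 = a := by decide +kernel
theorem mulN_inv' : ∀ a < 64, a ≠ 0 → mulN a (ivN a) = 1 := by decide +kernel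

/-- The field with `64` elements. -/
def F64 : Type := Fin 64

namespace F64

instance : DecidableEq F64 := inferInstanceAs (DecidableEq (Fin 64))
instance : Fintype F64 := inferInstanceAs (Fintype (Fin 64))

/-- The underlying number. -/
def val (a : F64) : ℕ := Fin.val a

theorem val_lt (a : F64) : a.val < 64 := Fin.isLt a
theorem ext' {a b : F64} (h : a.val = b.val) : a = b := Fin.ext h

/-- The element with a given number. -/
def mk (n : ℕ) (h : n < 64) : F64 := (⟨n, h⟩ : Fin 64)
theorem val_mk (n : ℕ) (h : n < 64) : (mk n h).val = n := rfl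

instance : Add F64 := ⟨fun a b => mk (a.val ^^^ b.val) (Nat.xor_lt_two_pow (n := 6) a.val_lt b.val_lt)⟩
instance : Zero F64 := ⟨mk 0 (by norm_num)⟩
instance : One F64 := ⟨mk 1 (by norm_num)⟩
instance : Neg F64 := ⟨fun a => a⟩
instance : Mul F64 := ⟨fun a b => mk (mulN a.val b.val) (mulN_lt _ _)⟩
instance : Inv F64 := ⟨fun a => mk (ivN a.val) (ivN_lt _)⟩

theorem add_val (a b : F64) : (a + b).val = a.val ^^^ b.val := rfl
theorem mul_val (a b : F64) : (a * b).val = mulN a.val b.val := rfl
theorem zero_val : (0 : F64).val = 0 := rfl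
theorem one_val : (1 : F64).val = 1 := rfl
theorem neg_val (a : F64) : (-a).val = a.val := rfl
theorem inv_val (a : F64) : (a⁻¹).val = ivN a.val := rfl

theorem ne_zero_val {a : F64} (h : a ≠ 0) : a.val ≠ 0 := fun h' => h (ext' h')

instance : Field F64 where
  add_assoc a b c := ext' (by simp only [add_val]; exact Nat.xor_assoc _ _ _)
  zero_add a := ext' (by simp only [add_val, zero_val]; exact Nat.zero_xor _)
  add_zero a := ext' (by simp only [add_val, zero_val]; exact Nat.xor_zero _)
  add_comm a b := ext' (by simp only [add_val]; exact Nat.xor_comm _ _)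
  neg_add_cancel a := ext' (by simp only [add_val, neg_val, zero_val]; exact Nat.xor_self _)
  mul_assoc a b c := ext' (by simp only [mul_val]; exact mulN_assoc' _ a.val_lt _ b.val_lt _ c.val_lt)
  mul_comm a b := ext' (by simp only [mul_val]; exact mulN_comm' _ _)
  one_mul a := ext' (by simp only [mul_val, one_val]; rw [mulN_comm']; exact mulN_one' _ a.val_lt)
  mul_one a := ext' (by simp only [mul_val, one_val]; exact mulN_one' _ a.val_lt)
  zero_mul a := ext' (by simp only [mul_val, zero_val]; rw [mulN_comm']; exact mulN_zero' _ a.val_lt)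
  mul_zero a := ext' (by simp only [mul_val, zero_val]; exact mulN_zero' _ a.val_lt)
  left_distrib a b c := ext' (by
    simp only [mul_val, add_val]; exact mulN_xor' _ a.val_lt _ b.val_lt _ c.val_lt)
  right_distrib a b c := ext' (by
    simp only [mul_val, add_val]
    rw [mulN_comm' _ c.val, mulN_comm' a.val, mulN_comm' b.val]
    exact mulN_xor' _ c.val_lt _ a.val_lt _ b.val_lt)
  exists_pair_ne := ⟨0, 1, by decide⟩
  mul_inv_cancel a ha := ext' (by
    simp only [mul_val, inv_val, one_val]; exact mulN_inv' _ a.val_lt (ne_zero_val ha))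
  inv_zero := by decide +kernel
  nsmul := nsmulRec
  zsmul := zsmulRec
  nnqsmul := _
  qsmul := _

end F64
end Pool.Agent.H60
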