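import Mathlib
import Pool.Agent.H60.Lists
import Pool.Agent.H13.LSP.Classes

/-!
# Pruning the tree of certificate prefixes

If every `NP`-language reduces to a problem in which, among instances of the same dimension, a
polynomial-time selector finds the instance which is more likely to be a yes-instance, then
`P = NP`.
-/

set_option autoImplicit false

namespace Pool.Agent.H60.Prune

open Pool.Agent.H7.Comp Pool.Agent.H60.Lists Pool.Agent.H13.LSP

/-! ### Coding pairs of bit strings -/

/-- number of leading `true`s -/
def lead (z : List Bool) : ℕ := z.foldr (fun a r => bif a then r + 1 else 0) 0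

/-- the code of the pair `(x, u)` -/
def code (x u : List Bool) : List Bool := List.replicate x.length true ++ (false :: (x ++ u))

/-- first component -/
def decX (z : List Bool) : List Bool := (z.drop (lead z + 1)).take (lead z)

/-- second component -/
def decU (z : List Bool) : List Bool := z.drop (lead z + 1 + lead z)

lemma lead_replicate (k : ℕ) (r : List Bool) :
    lead (List.replicate k true ++ (false :: r)) = k := by
  induction k with
  | zero => rfl
  | succ k ih =>
    rw [List.replicate_succ, List.cons_append]
    show (bif true then lead (List.replicate k true ++ (false :: r)) + 1 else 0) = k + 1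
    rw [ih]
    rfl

lemma lead_code (x u : List Bool) : lead (code x u) = x.length := lead_replicate _ _

lemma drop_code (x u : List Bool) : (code x u).drop (x.length + 1) = x ++ u := by
  have h : code x u = (List.replicate x.length true ++ [false]) ++ (x ++ u) := by
    simp [code]
  rw [h]
  exact List.drop_left' (by simp)

lemma decX_code (x u : List Bool) : decX (code x u) = x := by
  unfold decX
  rw [lead_code, drop_code]
  simp

lemma decU_code (x u : List Bool) : decU (code x u) = u := by
  unfold decU
  rw [lead_code, ← List.drop_drop, drop_code]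
  simp

lemma decX_length (z : List Bool) : (decX z).length ≤ z.length := by
  unfold decX
  rw [List.length_take, List.length_drop]
  omega

section
variable {α : Type} [Enc α]

lemma lead_le (z : List Bool) : lead z ≤ z.length := by
  induction z with
  | nil => exact le_rfl
  | cons a z ih =>
    show (bif a then lead z + 1 else 0) ≤ (a :: z).length
    rw [List.length_cons]
    cases a
    · simp
    · simpa using ih

lemma pt_lead : PT lead := by
  refine foldr (l := fun z : List Bool => z) (init := fun _ => 0)
    (step := fun _ a r => bif a then r + 1 else 0) PT.id (PT.const 0)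
    (PT.ite' (PT.fst.comp PT.snd) (PT.succ.comp (PT.snd.comp PT.snd)) (PT.const 0))
    (fun z => 2 * z.length + 1) (((PB.const 2).mul (length PT.id).value).add (PB.const 1)) ?_
  intro z i _
  show sz (lead (z.drop i)) ≤ 2 * z.length + 1
  rw [sz_nat]
  have h1 := lead_le (z.drop i)
  rw [List.length_drop] at h1
  omega

lemma pt_code {f g : α → List Bool} (hf : PT f) (hg : PT g) : PT (fun x => code (f x) (g x)) :=
  append (replicate (length hf) (PT.const true)) (PT.cons (PT.const false) (append hf hg))

lemma pt_decX : PT decX := take (drop PT.id (PT.succ.comp pt_lead)) pt_lead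

lemma pt_decU : PT decU := drop PT.id ((PT.succ.comp pt_lead).add pt_lead)

lemma pt_pow {f : α → ℕ} (hf : PT f) (c : ℕ) : PT (fun x => f x ^ c) := by
  induction c with
  | zero => exact (PT.const 1).congr (fun x => by simp)
  | succ c ih => exact (ih.mul hf).congr (fun x => by rw [pow_succ])

end

/-! ### Picking the best candidate of a given dimension -/

section pick
variable {ι : Type} (dim : ι → ℕ) (sel : ι × ι → Bool) (I : List Bool → ι)

/-- one step of `pick` -/
def pickStep (n : ℕ) (u : List Bool) (r : List (List Bool)) : List (List Bool) :=
  bif decide (dim (I u) = n) then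
    (bif (decide (r.length = 0) || sel (I u, I (r.headD []))) then [u] else r)
  else r

/-- The list consisting of the best element `u` of `l` with `dim (I u) = n` (empty if there is
none). -/
def pick (n : ℕ) (l : List (List Bool)) : List (List Bool) := l.foldr (pickStep dim sel I n) []

lemma pick_cons (n : ℕ) (u : List Bool) (l : List (List Bool)) :
    pick dim sel I n (u :: l) = pickStep dim sel I n u (pick dim sel I n l) := rfl

lemma pick_mem (n : ℕ) (l : List (List Bool)) (w : List Bool) (hw : w ∈ pick dim sel I n l) :
    w ∈ l ∧ dim (I w) = n := by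
  induction l with
  | nil => simp [pick] at hw
  | cons u l ih =>
    rw [pick_cons] at hw
    unfold pickStep at hw
    by_cases h1 : dim (I u) = n
    · simp only [h1, decide_true, cond_true] at hw
      cases h2 : (decide ((pick dim sel I n l).length = 0) ||
          sel (I u, I ((pick dim sel I n l).headD [])))
      · rw [h2, cond_false] at hw
        exact ⟨List.mem_cons_of_mem _ (ih hw).1, (ih hw).2⟩
      · rw [h2, cond_true, List.mem_singleton] at hw
        subst hw
        exact ⟨by simp, h1⟩
    · simp only [h1, decide_false, cond_false] at hw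
      exact ⟨List.mem_cons_of_mem _ (ih hw).1, (ih hw).2⟩

lemma pick_length (n : ℕ) (l : List (List Bool)) : (pick dim sel I n l).length ≤ 1 := by
  induction l with
  | nil => simp [pick]
  | cons u l ih =>
    rw [pick_cons]
    unfold pickStep
    cases decide (dim (I u) = n)
    · simpa using ih
    · cases (decide ((pick dim sel I n l).length = 0) ||
          sel (I u, I ((pick dim sel I n l).headD [])))
      · simpa using ih
      · simp

lemma pick_best {valid YES : ι → Prop}
    (h : ∀ I J, valid I → valid J → dim I = dim J → (sel (I, J) = true → YES J → YES I) ∧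
      (sel (I, J) = false → YES I → YES J)) (hI : ∀ u, valid (I u)) (n : ℕ)
    (l : List (List Bool)) (u : List Bool) (hu : u ∈ l) (hn : dim (I u) = n) :
    ∃ w, pick dim sel I n l = [w] ∧ (YES (I u) → YES (I w)) := by
  induction l with
  | nil => simp at hu
  | cons a l ih =>
    rw [pick_cons]
    unfold pickStep
    by_cases h1 : dim (I a) = n
    · simp only [h1, decide_true, cond_true]
      rcases hr : pick dim sel I n l with _ | ⟨w, r⟩
      · -- the tail has no element of dimension `n`
        simp only [List.length_nil, decide_true, Bool.true_or, cond_true]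
        rcases List.mem_cons.mp hu with rfl | hu'
        · exact ⟨_, rfl, fun h => h⟩
        · obtain ⟨w, hw, _⟩ := ih hu'
          rw [hw] at hr
          cases hr
      · have hr' : r = [] := by
          have := pick_length dim sel I n l
          rw [hr, List.length_cons] at this
          exact List.length_eq_zero_iff.mp (by omega)
        subst hr'
        have hwn : dim (I w) = n := (pick_mem dim sel I n l w (by rw [hr]; simp)).2
        have hh := h (I a) (I w) (hI a) (hI w) (h1.trans hwn.symm)
        have hd : decide (([w] : List (List Bool)).length = 0) = false := by simp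
        simp only [hd, Bool.false_or, List.headD_cons]
        cases hs : sel (I a, I w)
        · simp only [cond_false]
          refine ⟨w, rfl, ?_⟩
          rcases List.mem_cons.mp hu with rfl | hu'
          · exact hh.2 hs
          · obtain ⟨w', hw', h3⟩ := ih hu'
            rw [hr] at hw'
            cases hw'
            exact h3
        · simp only [cond_true]
          refine ⟨a, rfl, ?_⟩
          rcases List.mem_cons.mp hu with rfl | hu'
          · exact fun h => h
          · obtain ⟨w', hw', h3⟩ := ih hu'
            rw [hr] at hw'
            cases hw'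
            exact fun h4 => hh.1 hs (h3 h4)
    · simp only [h1, decide_false, cond_false]
      rcases List.mem_cons.mp hu with rfl | hu'
      · exact absurd hn h1
      · exact ih hu'

end pick

/-! ### The levels of the search -/

section level
variable {ι : Type} (dim : ι → ℕ) (sel : ι × ι → Bool) (f : List Bool → ι) (D : List Bool → ℕ)

/-- one-bit extensions -/
def ext (l : List (List Bool)) : List (List Bool) :=
  l.flatMap (fun u => [true :: u, false :: u])

/-- The candidates of length `t`. -/
def level (x : List Bool) : ℕ → List (List Bool)
  | 0 => [[]]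
  | t + 1 => (List.range (D x)).flatMap
      (fun n => pick dim sel (fun u => f (code x u)) n (ext (level x t)))

lemma level_length_mem (x : List Bool) (t : ℕ) : ∀ u ∈ level dim sel f D x t, u.length = t := by
  induction t with
  | zero => simp [level]
  | succ t ih =>
    intro u hu
    unfold level at hu
    rw [List.mem_flatMap] at hu
    obtain ⟨n, _, hu⟩ := hu
    have h1 := (pick_mem _ _ _ _ _ _ hu).1
    unfold ext at h1
    rw [List.mem_flatMap] at h1
    obtain ⟨v, hv, h2⟩ := h1
    have h3 := ih v hv
    simp only [List.mem_cons, List.not_mem_nil, or_false] at h2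
    rcases h2 with rfl | rfl <;> simp [h3]

lemma level_card (x : List Bool) (t : ℕ) : (level dim sel f D x t).length ≤ D x + 1 := by
  cases t with
  | zero => simp [level]
  | succ t =>
    unfold level
    rw [List.length_flatMap]
    have : ∀ (k : ℕ) (g : ℕ → List (List Bool)), (∀ n, (g n).length ≤ 1) →
        ((List.range k).map (fun n => (g n).length)).sum ≤ k := by
      intro k g hg
      calc ((List.range k).map (fun n => (g n).length)).sum
          ≤ ((List.range k).map (fun n => (g n).length)).length * 1 := by
            refine List.sum_le_card_nsmul _ 1 ?_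
            intro m hm
            rw [List.mem_map] at hm
            obtain ⟨n, _, rfl⟩ := hm
            exact hg n
        _ = k := by simp
    exact (this _ _ (fun n => pick_length _ _ _ _ _)).trans (Nat.le_succ _)

end level

lemma sz_bits_le (u : List Bool) : sz u ≤ 4 * u.length + 1 := by
  induction u with
  | nil => simp [sz_nil]
  | cons a u ih =>
    rw [sz_cons, List.length_cons]
    have := sz_bool_le a
    omega

lemma sz_words_le (l : List (List Bool)) (k m : ℕ) (hl : l.length ≤ k)
    (h : ∀ u ∈ l, u.length ≤ m) : sz l ≤ k * (4 * m + 2) + 1 := by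
  induction l generalizing k with
  | nil => simp [sz_nil]
  | cons a l ih =>
    rw [sz_cons]
    rw [List.length_cons] at hl
    obtain ⟨k, rfl⟩ : ∃ k', k = k' + 1 := ⟨k - 1, by omega⟩
    have h1 := ih k (by omega) (fun u hu => h u (by simp [hu]))
    have h2 := h a (by simp)
    have h3 := sz_bits_le a
    have : (k + 1) * (4 * m + 2) = k * (4 * m + 2) + (4 * m + 2) := by ring
    omega

section pt
variable {ι : Type} [Enc ι] {dim : ι → ℕ} {sel : ι × ι → Bool} {f : List Bool → ι}
  {D : List Bool → ℕ}

lemma pt_pick (hdim : PT dim) (hsel : PT sel) (hf : PT f) :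
    PT (fun p : (List Bool × List (List Bool)) × ℕ =>
      pick dim sel (fun u => f (code p.1.1 u)) p.2 p.1.2) := by
  -- the inner step
  have hstep : PT (fun p : ((List Bool × List (List Bool)) × ℕ) × List Bool × List (List Bool) =>
      pickStep dim sel (fun u => f (code p.1.1.1 u)) p.1.2 p.2.1 p.2.2) := by
    have hx : PT (fun p : ((List Bool × List (List Bool)) × ℕ) × List Bool × List (List Bool) =>
      p.1.1.1) := PT.fst.comp (PT.fst.comp PT.fst)
    have hn : PT (fun p : ((List Bool × List (List Bool)) × ℕ) × List Bool × List (List Bool) =>
      p.1.2) := PT.snd.comp PT.fst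
    have hu : PT (fun p : ((List Bool × List (List Bool)) × ℕ) × List Bool × List (List Bool) =>
      p.2.1) := PT.fst.comp PT.snd
    have hr : PT (fun p : ((List Bool × List (List Bool)) × ℕ) × List Bool × List (List Bool) =>
      p.2.2) := PT.snd.comp PT.snd
    have hIu := hf.comp (pt_code hx hu)
    have hIw := hf.comp (pt_code hx (PT.headD'.comp (hr.pair (PT.const []))))
    have hc : PT (fun p : ((List Bool × List (List Bool)) × ℕ) × List Bool × List (List Bool) =>
        (decide (p.2.2.length = 0) || sel (f (code p.1.1.1 p.2.1),
          f (code p.1.1.1 (p.2.2.headD []))))) := by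
      refine (PT.ite' (PTp.toPT (PTp.eq (length hr) (PT.const 0))) (PT.const true)
        (hsel.comp (hIu.pair hIw))).congr (fun p => ?_)
      cases decide (p.2.2.length = 0) <;> rfl
    exact PT.ite' (PTp.toPT (PTp.eq (hdim.comp hIu) hn))
      (PT.ite' hc (PT.cons hu (PT.const [])) hr) hr
  refine foldr (l := fun p : (List Bool × List (List Bool)) × ℕ => p.1.2) (init := fun _ => [])
    (step := fun p u r => pickStep dim sel (fun u => f (code p.1.1 u)) p.2 u r)
    (PT.snd.comp PT.fst) (PT.const []) hstep (fun p => sz p.1.2 + 1)
    ((PT.snd.comp PT.fst).size.add (PB.const 1)) ?_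
  intro p i _
  show sz (pick dim sel (fun u => f (code p.1.1 u)) p.2 (p.1.2.drop i)) ≤ sz p.1.2 + 1
  have h1 := pick_length dim sel (fun u => f (code p.1.1 u)) p.2 (p.1.2.drop i)
  rcases hr : pick dim sel (fun u => f (code p.1.1 u)) p.2 (p.1.2.drop i) with _ | ⟨w, r⟩
  · rw [sz_nil]; omega
  · have h2 : w ∈ p.1.2 := List.mem_of_mem_drop
      (pick_mem dim sel (fun u => f (code p.1.1 u)) p.2 (p.1.2.drop i) w (by rw [hr]; simp)).1
    have h3 : r = [] := by
      rw [hr, List.length_cons] at h1
      exact List.length_eq_zero_iff.mp (by omega)
    subst h3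
    rw [sz_cons, sz_nil]
    have h4 : sz w + 1 ≤ sz p.1.2 := by
      obtain ⟨l1, l2, hl⟩ := List.append_of_mem h2
      have h5 := sz_append l1 (w :: l2)
      rw [← hl, sz_cons] at h5
      have := sz_pos l1
      have := sz_pos l2
      omega
    omega

lemma pt_level (hdim : PT dim) (hsel : PT sel) (hf : PT f) (hD : PT D) :
    PT (fun p : List Bool × ℕ => level dim sel f D p.1 p.2) := by
  refine PT.iterClosed (n := fun p : List Bool × ℕ => p.2)
    (fun p t => level dim sel f D p.1 t)
    (fun q => (List.range (D q.1.1)).flatMap (fun n => pick dim sel (fun u => f (code q.1.1 u)) n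
      (ext q.2.2))) PT.snd ?_ ?_ ?_ (fun p => (D p.1 + 1) * (4 * p.2 + 2) + 1) ?_ ?_
  · exact (PT.const [[]]).congr (fun p => rfl)
  · have hext : PT (fun q : (List Bool × ℕ) × ℕ × List (List Bool) => ext q.2.2) := by
      refine flatMap (l := fun q : (List Bool × ℕ) × ℕ × List (List Bool) => q.2.2)
        (f := fun _ u => [true :: u, false :: u]) (PT.snd.comp PT.snd) ?_
      exact PT.cons (PT.cons (PT.const true) PT.snd)
        (PT.cons (PT.cons (PT.const false) PT.snd) (PT.const []))
    refine flatMap (l := fun q : (List Bool × ℕ) × ℕ × List (List Bool) => List.range (D q.1.1))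
      (f := fun q n => pick dim sel (fun u => f (code q.1.1 u)) n (ext q.2.2)) ?_ ?_
    · exact range (hD.comp (PT.fst.comp PT.fst))
    · exact (pt_pick hdim hsel hf).comp
        (((PT.fst.comp (PT.fst.comp PT.fst)).pair (hext.comp PT.fst)).pair PT.snd)
  · intro p i _
    rfl
  · exact ((((hD.comp PT.fst).value.add (PB.const 1)).mul
      (((PB.const 4).mul (PT.value PT.snd)).add (PB.const 2)))).add (PB.const 1)
  · intro p i hi
    have hi' : i ≤ p.2 := hi
    refine sz_words_le _ (D p.1 + 1) p.2 (level_card dim sel f D p.1 i) ?_
    intro u hu
    rw [level_length_mem dim sel f D p.1 i u hu]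
    exact hi'

end pt

/-- **Pruning theorem.** -/
theorem prune {ι : Type} [Enc ι] (valid YES : ι → Prop) (dim : ι → ℕ) (hdim : PT dim)
    (sel : ι × ι → Bool) (hsel : PT sel)
    (h : ∀ I J, valid I → valid J → dim I = dim J → (sel (I, J) = true → YES J → YES I) ∧
      (sel (I, J) = false → YES I → YES J))
    (hard : ∀ L, InNP L → ∃ f : List Bool → ι, PT f ∧ (∀ x, valid (f x)) ∧
      ∀ x, x ∈ L ↔ YES (f x)) :
    ∀ L, InNP L → InP L := by
  rintro L ⟨V, c, hV, hL⟩
  -- the prefix language
  let L2 : Set (List Bool) := {z | ∃ v : List Bool,
    (v ++ decU z).length ≤ ((decX z).length + 2) ^ c ∧ V (decX z, v ++ decU z) = true}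
  have hL2 : InNP L2 := by
    let V2 : List Bool × List Bool → Bool := fun p =>
      decide ((p.2 ++ decU p.1).length ≤ ((decX p.1).length + 2) ^ c ∧
        V (decX p.1, p.2 ++ decU p.1) = true)
    refine ⟨V2, c, ?_, ?_⟩
    · have hX : PT (fun p : List Bool × List Bool => decX p.1) := pt_decX.comp PT.fst
      have hU : PT (fun p : List Bool × List Bool => p.2 ++ decU p.1) :=
        append PT.snd (pt_decU.comp PT.fst)
      exact PTp.toPT ((PTp.le (length hU) (pt_pow ((length hX).add (PT.const 2)) c)).and
        (PTp.ofBool (hV.comp (hX.pair hU))))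
    · intro z
      constructor
      · rintro ⟨v, h1, h2⟩
        refine ⟨v, ?_, ?_⟩
        · rw [List.length_append] at h1
          have h3 : ((decX z).length + 2) ^ c ≤ (z.length + 2) ^ c :=
            Nat.pow_le_pow_left (Nat.add_le_add_right (decX_length z) 2) c
          omega
        · exact decide_eq_true ⟨h1, h2⟩
      · rintro ⟨v, _, h2⟩
        have h3 := of_decide_eq_true h2
        exact ⟨v, h3.1, h3.2⟩
  obtain ⟨f, hf, hval, hfL⟩ := hard L2 hL2
  -- meaning of the instances
  have hgood : ∀ x u : List Bool, YES (f (code x u)) ↔
      ∃ v : List Bool, (v ++ u).length ≤ (x.length + 2) ^ c ∧ V (x, v ++ u) = true := by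
    intro x u
    rw [← hfL (code x u)]
    show (∃ v : List Bool, (v ++ decU (code x u)).length ≤ ((decX (code x u)).length + 2) ^ c ∧
      V (decX (code x u), v ++ decU (code x u)) = true) ↔ _
    rw [decX_code, decU_code]
  -- bound for the dimensions
  obtain ⟨e, he⟩ : PB (fun p : List Bool × List Bool => dim (f (code p.1 p.2))) :=
    (hdim.comp (hf.comp (pt_code PT.fst PT.snd))).value
  let D : List Bool → ℕ := fun x => (4 * x.length + 4 * (x.length + 2) ^ c + 5) ^ e + 1
  have hDpt : PT D := by
    have h1 : PT (fun x : List Bool => x.length) := length PT.id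
    exact (pt_pow ((((PT.const 4).mul h1).add ((PT.const 4).mul
      (pt_pow (h1.add (PT.const 2)) c))).add (PT.const 5)) e).add (PT.const 1)
  have hDlt : ∀ x u : List Bool, u.length ≤ (x.length + 2) ^ c → dim (f (code x u)) < D x := by
    intro x u hu
    have h1 := he (x, u)
    simp only at h1
    have h2 : sz (x, u) + 2 ≤ 4 * x.length + 4 * (x.length + 2) ^ c + 5 := by
      rw [sz_pair]
      have := sz_bits_le x
      have := sz_bits_le u
      omega
    have h3 := Nat.pow_le_pow_left h2 e
    show dim (f (code x u)) < (4 * x.length + 4 * (x.length + 2) ^ c + 5) ^ e + 1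
    omega
  -- the algorithm
  have hacc : PTp (fun x : List Bool => ∃ t, t < (x.length + 2) ^ c + 1 ∧
      ∃ u ∈ level dim sel f D x t, V (x, u) = true) := by
    refine PTp.bex (P := fun (x : List Bool) t => ∃ u ∈ level dim sel f D x t, V (x, u) = true)
      ((pt_pow ((length PT.id).add (PT.const 2)) c).add (PT.const 1)) ?_
    exact exMem (l := fun p : List Bool × ℕ => level dim sel f D p.1 p.2)
      (P := fun p u => V (p.1, u) = true) (pt_level hdim hsel hf hDpt)
      (PTp.ofBool (hV.comp ((PT.fst.comp PT.fst).pair PT.snd)))
  obtain ⟨g, hg, hgacc⟩ := hacc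
  refine ⟨g, hg, fun x => ?_⟩
  rw [hgacc x, hL x]
  constructor
  · rintro ⟨t, ht, u, hu, hVu⟩
    refine ⟨u, ?_, hVu⟩
    rw [level_length_mem dim sel f D x t u hu]
    omega
  · intro hw
    -- the invariant
    have key : ∀ k t, t + k = (x.length + 2) ^ c →
        (∃ u ∈ level dim sel f D x t, YES (f (code x u))) →
        ∃ t, t < (x.length + 2) ^ c + 1 ∧ ∃ u ∈ level dim sel f D x t, V (x, u) = true := by
      intro k
      induction k with
      | zero =>
        rintro t ht ⟨u, hu, hY⟩
        obtain ⟨v, hv1, hv2⟩ := (hgood x u).mp hY
        have hlen := level_length_mem dim sel f D x t u hu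
        have hv : v = [] := by
          rw [List.length_append] at hv1
          exact List.length_eq_zero_iff.mp (by omega)
        subst hv
        exact ⟨t, by omega, u, hu, hv2⟩
      | succ k ih =>
        rintro t ht ⟨u, hu, hY⟩
        obtain ⟨v, hv1, hv2⟩ := (hgood x u).mp hY
        have hlen := level_length_mem dim sel f D x t u hu
        rcases List.eq_nil_or_concat v with rfl | ⟨v', b, rfl⟩
        · exact ⟨t, by omega, u, hu, hv2⟩
        · apply ih (t + 1) (by omega)
          have hY' : YES (f (code x (b :: u))) := by
            rw [hgood]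
            refine ⟨v', ?_, ?_⟩
            · simpa using hv1
            · simpa using hv2
          have hmem : (b :: u) ∈ ext (level dim sel f D x t) := by
            unfold ext
            rw [List.mem_flatMap]
            refine ⟨u, hu, ?_⟩
            cases b <;> simp
          obtain ⟨w, hw1, hw2⟩ := pick_best dim sel (fun u => f (code x u)) h
            (fun u => hval _) (dim (f (code x (b :: u)))) _ (b :: u) hmem rfl
          refine ⟨w, ?_, hw2 hY'⟩
          show w ∈ (List.range (D x)).flatMap
            (fun n => pick dim sel (fun u => f (code x u)) n (ext (level dim sel f D x t)))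
          rw [List.mem_flatMap]
          refine ⟨dim (f (code x (b :: u))), ?_, ?_⟩
          · rw [List.mem_range]
            apply hDlt
            rw [List.length_cons]
            omega
          · rw [hw1]
            simp
    apply key ((x.length + 2) ^ c) 0 (by omega)
    refine ⟨[], by simp [level], ?_⟩
    rw [hgood]
    obtain ⟨w, hw1, hw2⟩ := hw
    exact ⟨w, by simpa using hw1, by simpa using hw2⟩

end Pool.Agent.H60.Prune
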